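import Pool.Agent.Lib.P0036f5v2.Defs

/-!
# From 1-limited automata to one-way nondeterministic automata (transition tables)
-/

set_option autoImplicit false

namespace Pool.Agent.P0036f5v2

open Relation

namespace Mach

variable {A : Type} (M : Mach A) (cv : Bool)

/-- runs with a step counter -/
inductive Steps (m : ℕ) : ℕ → M.Cfg → M.Cfg → Prop
  | refl (c : M.Cfg) : Steps m 0 c c
  | head {n : ℕ} {c c₁ c₂ : M.Cfg} : M.Step cv m c c₁ → Steps m n c₁ c₂ → Steps m (n + 1) c c₂

theorem Steps.toRefl {m n : ℕ} {c c' : M.Cfg} (h : M.Steps cv m n c c') :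
    ReflTransGen (M.Step cv m) c c' := by
  induction h with
  | refl c => exact ReflTransGen.refl
  | head h _ ih => exact ReflTransGen.head h ih

theorem exists_steps {m : ℕ} {c c' : M.Cfg} (h : ReflTransGen (M.Step cv m) c c') :
    ∃ n, M.Steps cv m n c c' := by
  induction h using ReflTransGen.head_induction_on with
  | refl => exact ⟨0, Steps.refl _⟩
  | head h _ ih =>
    obtain ⟨n, hn⟩ := ih
    exact ⟨n + 1, Steps.head h hn⟩

/-- `p → p'` by a right move on the symbol `g` -/
def RM (g : Sym A M.W) (p p' : M.Q) : Prop := ∃ x, (p', x, true) ∈ M.δ p g ∧ OkW cv g x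

/-- `p → p'` by a left move on the symbol `g` -/
def LM (g : Sym A M.W) (p p' : M.Q) : Prop := ∃ x, (p', x, false) ∈ M.δ p g ∧ OkW cv g x

/-- the table of the left end-marker cell -/
def T0 : Set (M.Q × M.Q) := {pq | M.RM cv Sym.lend pq.1 pq.2}

/-- one excursion to the left of a cell containing the frozen symbol `g`, back to that cell -/
def Exc (T : Set (M.Q × M.Q)) (g : Sym A M.W) (p p' : M.Q) : Prop :=
  ∃ r, M.LM cv g p r ∧ (r, p') ∈ T

/-- the table after appending a cell with the frozen symbol `g` -/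
def upd (T : Set (M.Q × M.Q)) (g : Sym A M.W) : Set (M.Q × M.Q) :=
  {pq | ∃ r, ReflTransGen (M.Exc cv T g) pq.1 r ∧ M.RM cv g r pq.2}

/-- the table of a frozen tape segment -/
def table (y : List (Sym A M.W)) : Set (M.Q × M.Q) := y.foldl (M.upd cv) (M.T0 cv)

theorem table_nil : M.table cv [] = (M.T0 cv) := rfl

theorem table_snoc (y : List (Sym A M.W)) (g : Sym A M.W) :
    M.table cv (y ++ [g]) = M.upd cv (M.table cv y) g := by
  simp [table, List.foldl_append]

/-- the content of the cells `0, …, |y|` -/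
def tp (y : List (Sym A M.W)) (j : ℕ) : Sym A M.W :=
  if j = 0 then Sym.lend else (y[j - 1]?).getD Sym.rend

theorem tp_zero (y : List (Sym A M.W)) : M.tp y 0 = Sym.lend := rfl

theorem tp_snoc_le (y : List (Sym A M.W)) (g : Sym A M.W) (j : ℕ) (hj : j ≤ y.length) :
    M.tp (y ++ [g]) j = M.tp y j := by
  unfold tp
  split_ifs with h
  · rfl
  · rw [List.getElem?_append_left (by omega)]

theorem tp_snoc_last (y : List (Sym A M.W)) (g : Sym A M.W) :
    M.tp (y ++ [g]) (y.length + 1) = g := by
  unfold tp
  simp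

/-- All cells `≤ |y|` hold `y` (cell `0` the left end-marker) and are frozen. -/
def Agree (m : ℕ) (y : List (Sym A M.W)) (c : M.Cfg) : Prop :=
  (∀ j, j ≤ y.length → c.tape j = M.tp y j) ∧
    ∀ j, 1 ≤ j → j ≤ y.length → j ≤ m → j ∈ c.seen

theorem Agree.of_snoc {m : ℕ} {y : List (Sym A M.W)} {g : Sym A M.W} {c : M.Cfg}
    (h : M.Agree m (y ++ [g]) c) : M.Agree m y c := by
  refine ⟨fun j hj => ?_, fun j h1 h2 h3 => ?_⟩
  · rw [h.1 j (by simp; omega), M.tp_snoc_le y g j hj]
  · exact h.2 j h1 (by simp; omega) h3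

theorem Agree.congr {m : ℕ} {y : List (Sym A M.W)} {c c' : M.Cfg}
    (h : M.Agree m y c) (ht : c'.tape = c.tape) (hs : c.seen ⊆ c'.seen) : M.Agree m y c' :=
  ⟨fun j hj => by rw [ht]; exact h.1 j hj, fun j h1 h2 h3 => hs (h.2 j h1 h2 h3)⟩

/-- A table entry gives a run. -/
theorem run_of_table (m : ℕ) (y : List (Sym A M.W)) :
    ∀ (_ : y.length ≤ m + 1) (p q : M.Q), (p, q) ∈ M.table cv y → ∀ c : M.Cfg, c.st = p →
      c.pos = y.length → M.Agree m y c →
      ∃ c' : M.Cfg, ReflTransGen (M.Step cv m) c c' ∧ c'.st = q ∧ c'.pos = y.length + 1 ∧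
        c'.tape = c.tape ∧ c.seen ⊆ c'.seen ∧ ∀ j ∈ c'.seen, j ∈ c.seen ∨ j ≤ y.length := by
  induction y using List.reverseRecOn with
  | nil =>
    intro hy p q hpq c hst hpos hag
    obtain ⟨x, hx, hok⟩ := hpq
    simp only at hx hok
    have htape : c.tape c.pos = Sym.lend := by
      have := hag.1 0 (by simp)
      simp only [List.length_nil] at hpos
      rw [hpos, this, tp_zero]
    refine ⟨⟨q, 1, c.tape, insert c.pos c.seen⟩, ?_, rfl, rfl, rfl, Set.subset_insert _ _, ?_⟩
    · refine ReflTransGen.single ⟨by simp at hpos; omega, x, true, ?_, fun _ => rfl, ?_, ?_, ?_, rfl⟩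
      · rw [hst, htape]
        exact hx
      · simp at hpos ⊢
        omega
      · intro h
        simp at hpos
        omega
      · intro _; exact ⟨rfl, by rw [htape]; exact hok⟩
    · intro j hj
      rcases hj with hj | hj
      · right; simp at hpos; simp; omega
      · left; exact hj
  | append_singleton y g ih =>
    intro hy p q hpq c hst hpos hag
    rw [table_snoc] at hpq
    obtain ⟨r, hchain, x, hx, hok⟩ := hpq
    simp only at hchain hx hok
    have hy' : y.length ≤ m + 1 := by simp at hy; omega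
    have hlen : (y ++ [g]).length = y.length + 1 := by simp
    -- first follow the chain of excursions
    have key : ∀ p', ReflTransGen (M.Exc cv (M.table cv y) g) p p' →
        ∃ c' : M.Cfg, ReflTransGen (M.Step cv m) c c' ∧ c'.st = p' ∧ c'.pos = y.length + 1 ∧
          c'.tape = c.tape ∧ c.seen ⊆ c'.seen ∧
          ∀ j ∈ c'.seen, j ∈ c.seen ∨ j ≤ y.length + 1 := by
      intro p' hp'
      induction hp' with
      | refl =>
        exact ⟨c, ReflTransGen.refl, hst, by rw [hpos, hlen], rfl, subset_rfl,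
          fun j hj => Or.inl hj⟩
      | @tail b d _ hbd ihc =>
        obtain ⟨c₁, hr₁, hs₁, hp₁, ht₁, hsub₁, hsn₁⟩ := ihc
        obtain ⟨r', ⟨x', hx', hok'⟩, hT⟩ := hbd
        have hag₁ : M.Agree m (y ++ [g]) c₁ := hag.congr M ht₁ hsub₁
        have htape : c₁.tape c₁.pos = g := by
          rw [hp₁, hag₁.1 _ (by simp), tp_snoc_last]
        let c₂ : M.Cfg := ⟨r', y.length, c₁.tape, insert c₁.pos c₁.seen⟩
        have hstep : M.Step cv m c₁ c₂ := by
          refine ⟨by rw [hp₁]; simp at hy; omega, x', false, ?_, ?_, ?_, ?_, ?_, rfl⟩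
          · rw [htape, hs₁]; exact hx'
          · intro h; rw [hp₁] at h; omega
          · simp [c₂, hp₁]
          · intro h
            exfalso
            apply h.2.2
            exact hag₁.2 _ h.1 (by rw [hp₁]; simp) h.2.1
          · intro _; exact ⟨rfl, by rw [htape]; exact hok'⟩
        have hag₂ : M.Agree m y c₂ := (hag₁.congr M (c' := c₂) rfl (Set.subset_insert _ _)).of_snoc M
        obtain ⟨c₃, hr₃, hs₃, hp₃, ht₃, hsub₃, hsn₃⟩ := ih hy' r' d hT c₂ rfl rfl hag₂
        refine ⟨c₃, (hr₁.trans (ReflTransGen.single hstep)).trans hr₃, hs₃, hp₃,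
          by rw [ht₃]; exact ht₁, ?_, ?_⟩
        · exact (hsub₁.trans (Set.subset_insert _ _)).trans hsub₃
        · intro j hj
          rcases hsn₃ j hj with h | h
          · rcases h with h | h
            · right; rw [h, hp₁]
            · exact hsn₁ j h
          · right; omega
    obtain ⟨c₁, hr₁, hs₁, hp₁, ht₁, hsub₁, hsn₁⟩ := key r hchain
    have hag₁ : M.Agree m (y ++ [g]) c₁ := hag.congr M ht₁ hsub₁
    have htape : c₁.tape c₁.pos = g := by
      rw [hp₁, hag₁.1 _ (by simp), tp_snoc_last]
    refine ⟨⟨q, y.length + 2, c₁.tape, insert c₁.pos c₁.seen⟩, ?_, rfl, by simp, ht₁,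
      hsub₁.trans (Set.subset_insert _ _), ?_⟩
    · refine hr₁.tail ⟨by rw [hp₁]; simp at hy; omega, x, true, ?_, fun _ => rfl, ?_, ?_, ?_, rfl⟩
      · rw [htape, hs₁]; exact hx
      · simp [hp₁]
      · intro h
        exfalso
        apply h.2.2
        exact hag₁.2 _ h.1 (by rw [hp₁]; simp) h.2.1
      · intro _; exact ⟨rfl, by rw [htape]; exact hok⟩
    · intro j hj
      rcases hj with h | h
      · right; rw [h, hp₁, hlen]
      · rcases hsn₁ j h with h | h
        · exact Or.inl h
        · right; rw [hlen]; exact h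

/-- A run leaving a frozen segment to the right passes through a table entry. -/
theorem table_of_run (m : ℕ) (y : List (Sym A M.W)) :
    ∀ (n : ℕ) (c c'' : M.Cfg), c.pos = y.length → M.Agree m y c → M.Steps cv m n c c'' →
      y.length < c''.pos →
      ∃ (c' : M.Cfg) (n' : ℕ), M.Steps cv m n' c' c'' ∧ n' < n ∧ (c.st, c'.st) ∈ M.table cv y ∧
        c'.pos = y.length + 1 ∧ c'.tape = c.tape ∧ c.seen ⊆ c'.seen ∧
        ∀ j ∈ c'.seen, j ∈ c.seen ∨ j ≤ y.length := by
  induction y using List.reverseRecOn with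
  | nil =>
    intro n c c'' hpos hag hrun hlt
    cases hrun with
    | refl => simp at hpos hlt; omega
    | @head n _ c₁ _ hs hrest =>
      obtain ⟨hle, x, d, hδ, h0, hp, hw, hnw, hseen⟩ := hs
      have hpos0 : c.pos = 0 := by simpa using hpos
      have hd : d = true := h0 hpos0
      subst hd
      have htape : c.tape c.pos = Sym.lend := by
        have := hag.1 0 (by simp)
        rw [hpos0, this, tp_zero]
      have hnw' := hnw (by omega)
      rw [htape] at hδ hnw'
      refine ⟨c₁, n, hrest, by omega, ⟨x, hδ, hnw'.2⟩, ?_, hnw'.1, ?_, ?_⟩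
      · simp [hp, hpos0]
      · rw [hseen]; exact Set.subset_insert _ _
      · intro j hj
        rw [hseen] at hj
        rcases hj with h | h
        · right; rw [h, hpos0]; simp
        · exact Or.inl h
  | append_singleton y g ih =>
    have hlen : (y ++ [g]).length = y.length + 1 := by simp
    intro n
    induction n using Nat.strong_induction_on with
    | _ n ihn =>
    intro c c'' hpos hag hrun hlt
    rw [hlen] at hpos hlt
    cases hrun with
    | refl => omega
    | @head n _ c₁ _ hs hrest =>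
      obtain ⟨hle, x, d, hδ, h0, hp, hw, hnw, hseen⟩ := hs
      have htape : c.tape c.pos = g := by
        rw [hpos, hag.1 _ (by simp), tp_snoc_last]
      have hnw' := hnw (by
        intro h
        exact h.2.2 (hag.2 _ h.1 (by rw [hpos, hlen]) h.2.1))
      rw [htape] at hδ hnw'
      have ht₁ : c₁.tape = c.tape := hnw'.1
      have hag₁ : M.Agree m (y ++ [g]) c₁ := by
        refine hag.congr M ht₁ ?_
        rw [hseen]; exact Set.subset_insert _ _
      cases d with
      | true =>
        refine ⟨c₁, n, hrest, by omega, ?_, ?_, ht₁, ?_, ?_⟩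
        · rw [table_snoc]
          exact ⟨c.st, ReflTransGen.refl, x, hδ, hnw'.2⟩
        · simp [hp, hpos]
        · rw [hseen]; exact Set.subset_insert _ _
        · intro j hj
          rw [hseen] at hj
          rcases hj with h | h
          · right; rw [h, hpos, hlen]
          · exact Or.inl h
      | false =>
        have hp₁ : c₁.pos = y.length := by simp [hp, hpos]
        obtain ⟨c₂, n₂, hr₂, hn₂, hT, hp₂, ht₂, hsub₂, hsn₂⟩ :=
          ih n c₁ c'' hp₁ (hag₁.of_snoc M) hrest (by omega)
        have hag₂ : M.Agree m (y ++ [g]) c₂ := hag₁.congr M ht₂ hsub₂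
        obtain ⟨c₃, n₃, hr₃, hn₃, hT₃, hp₃, ht₃, hsub₃, hsn₃⟩ :=
          ihn n₂ (by omega) c₂ c'' (by rw [hp₂, hlen]) hag₂ hr₂ (by rw [hlen]; omega)
        refine ⟨c₃, n₃, hr₃, by omega, ?_, hp₃, by rw [ht₃, ht₂, ht₁], ?_, ?_⟩
        · rw [table_snoc] at hT₃ ⊢
          obtain ⟨r, hr, hR⟩ := hT₃
          refine ⟨r, ?_, hR⟩
          exact ReflTransGen.head ⟨c₁.st, ⟨x, hδ, hnw'.2⟩, hT⟩ hr
        · have : c.seen ⊆ c₁.seen := by rw [hseen]; exact Set.subset_insert _ _
          exact (this.trans hsub₂).trans hsub₃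
        · intro j hj
          rcases hsn₃ j hj with h | h
          · rcases hsn₂ j h with h | h
            · rw [hseen] at h
              rcases h with h | h
              · right; rw [h, hpos, hlen]
              · exact Or.inl h
            · right; rw [hlen]; omega
          · exact Or.inr h

/-- the one-way nondeterministic automaton of transition tables -/
def toNFA : NFA A (Set (M.Q × M.Q) × M.Q) where
  step := fun s a => {s' | ∃ (q₁ : M.Q) (x : A ⊕ M.W) (d : Bool),
    (q₁, x, d) ∈ M.δ s.2 (Sym.inp a) ∧ s'.1 = M.upd cv s.1 (Sym.ofW x) ∧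
    ((d = true ∧ s'.2 = q₁) ∨ (d = false ∧ ∃ p, (q₁, p) ∈ s.1 ∧ (p, s'.2) ∈ s'.1))}
  start := {((M.T0 cv), M.qI)}
  accept := {s | ∃ f ∈ M.F, (s.2, f) ∈ M.upd cv s.1 Sym.rend}

/-- The tape during a computation: the first `|y|` letter cells hold `y`, the others the input. -/
def Good (w : List A) (y : List (Sym A M.W)) (c : M.Cfg) : Prop :=
  (∀ j, c.tape j = if j ≤ y.length then M.tp y j else M.initTape w j) ∧
    ∀ j, 1 ≤ j → j ≤ w.length → (j ∈ c.seen ↔ j ≤ y.length)

theorem Good.agree {w : List A} {y : List (Sym A M.W)} {c : M.Cfg} (h : M.Good w y c) :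
    M.Agree w.length y c :=
  ⟨fun j hj => by rw [h.1 j, if_pos hj], fun j h1 h2 h3 => (h.2 j h1 h3).2 h2⟩

theorem Good.congr {w : List A} {y : List (Sym A M.W)} {c c' : M.Cfg} (h : M.Good w y c)
    (ht : c'.tape = c.tape) (hsub : c.seen ⊆ c'.seen)
    (hs : ∀ j ∈ c'.seen, j ∈ c.seen ∨ j ≤ y.length) : M.Good w y c' := by
  refine ⟨fun j => by rw [ht]; exact h.1 j, fun j h1 h2 => ⟨fun hj => ?_, fun hj => ?_⟩⟩
  · rcases hs j hj with h' | h'
    · exact (h.2 j h1 h2).1 h'
    · exact h'
  · exact hsub ((h.2 j h1 h2).2 hj)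

theorem initTape_letter (w : List A) (i : ℕ) (hi : i < w.length) :
    M.initTape w (i + 1) = Sym.inp w[i] := by
  simp [initTape, List.getElem?_eq_getElem hi]

theorem initTape_end (w : List A) : M.initTape w (w.length + 1) = Sym.rend := by
  simp [initTape]

/-- the first visit of a letter cell -/
theorem Good.first {w : List A} {y : List (Sym A M.W)} {c c₁ : M.Cfg} (h : M.Good w y c)
    (hpos : c.pos = y.length + 1) (_ : y.length < w.length) (x : A ⊕ M.W)
    (ht : c₁.tape = Function.update c.tape c.pos (Sym.ofW x))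
    (hs : c₁.seen = insert c.pos c.seen) : M.Good w (y ++ [Sym.ofW x]) c₁ := by
  have hlen : (y ++ [(Sym.ofW x : Sym A M.W)]).length = y.length + 1 := by simp
  refine ⟨fun j => ?_, fun j h1 h2 => ?_⟩
  · rw [ht, hlen]
    by_cases hj : j = y.length + 1
    · subst hj
      rw [if_pos le_rfl, tp_snoc_last, hpos, Function.update_self]
    · rw [hpos, Function.update_of_ne hj, h.1 j]
      by_cases hj2 : j ≤ y.length
      · rw [if_pos hj2, if_pos (by omega), M.tp_snoc_le y _ j hj2]
      · rw [if_neg hj2, if_neg (by omega)]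
  · rw [hs, hlen, hpos]
    constructor
    · rintro (h' | h')
      · omega
      · have := (h.2 j h1 h2).1 h'; omega
    · intro h'
      by_cases hj : j = y.length + 1
      · left; exact hj
      · right; exact (h.2 j h1 h2).2 (by omega)

theorem good_init (w : List A) : M.Good w [] (M.init w) := by
  refine ⟨fun j => ?_, fun j h1 _ => ?_⟩
  · by_cases hj : j = 0
    · subst hj; rfl
    · simp [init, hj]
  · simp [init]; omega

/-- From the automaton to the machine. -/
theorem reach_of_nfa (w : List A) :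
    ∀ (i : ℕ), i ≤ w.length → ∀ s ∈ (M.toNFA cv).evalFrom (M.toNFA cv).start (w.take i),
      ∃ (y : List (Sym A M.W)) (c : M.Cfg), y.length = i ∧ s.1 = M.table cv y ∧
        ReflTransGen (M.Step cv w.length) (M.init w) c ∧ M.Good w y c ∧ c.pos = i + 1 ∧
        c.st = s.2 := by
  intro i
  induction i with
  | zero =>
    intro _ s hs
    simp [toNFA] at hs
    refine ⟨[], M.init w, rfl, ?_, ReflTransGen.refl, M.good_init w, rfl, ?_⟩
    · rw [hs]; rfl
    · rw [hs]; rfl
  | succ i ih =>
    intro hi s' hs'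
    have hi' : i < w.length := by omega
    rw [List.take_succ_eq_append_getElem hi', NFA.evalFrom_append, NFA.evalFrom_singleton,
      NFA.mem_stepSet] at hs'
    obtain ⟨s, hs, q₁, x, d, hδ, hT', hq'⟩ := hs'
    obtain ⟨y, c, hy, hTy, hreach, hgood, hpos, hst⟩ := ih (by omega) s hs
    have htape : c.tape c.pos = Sym.inp w[i] := by
      rw [hgood.1, hpos, if_neg (by omega), M.initTape_letter w i hi']
    have hnotseen : c.pos ∉ c.seen := by
      rw [hgood.2 c.pos (by omega) (by omega)]
      omega
    -- the configuration after the first visit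
    let c₁ : M.Cfg := ⟨q₁, if d = true then c.pos + 1 else c.pos - 1,
      Function.update c.tape c.pos (Sym.ofW x), insert c.pos c.seen⟩
    have hstep : M.Step cv w.length c c₁ := by
      refine ⟨by omega, x, d, ?_, by intro h; omega, rfl, fun _ => rfl, ?_, rfl⟩
      · rw [htape, hst]; exact hδ
      · intro h
        exfalso
        exact h ⟨by omega, by omega, hnotseen⟩
    have hg₁ : M.Good w (y ++ [Sym.ofW x]) c₁ :=
      hgood.first M (by rw [hpos, hy]) (by omega) x rfl rfl
    have hr₁ := hreach.tail hstep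
    have hTs : s'.1 = M.table cv (y ++ [Sym.ofW x]) := by
      rw [table_snoc, hT', hTy]
    rcases hq' with ⟨hd, hq'⟩ | ⟨hd, p, hp, hpq⟩
    · subst hd
      exact ⟨y ++ [Sym.ofW x], c₁, by simp [hy], hTs, hr₁, hg₁, by simp [c₁, hpos], hq'.symm⟩
    · subst hd
      have hp₁ : c₁.pos = y.length := by simp [c₁, hpos, hy]
      rw [hTy] at hp
      have hag : M.Agree w.length y c₁ := (hg₁.agree M).of_snoc M
      obtain ⟨c₂, hr₂, hs₂, hp₂, ht₂, hsub₂, hsn₂⟩ :=
        M.run_of_table cv w.length y (by omega) q₁ p hp c₁ rfl hp₁ hag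
      have hg₂ : M.Good w (y ++ [Sym.ofW x]) c₂ := by
        refine hg₁.congr M ht₂ hsub₂ ?_
        intro j hj
        rcases hsn₂ j hj with h | h
        · exact Or.inl h
        · right; simp; omega
      rw [hTs] at hpq
      obtain ⟨c₃, hr₃, hs₃, hp₃, ht₃, hsub₃, hsn₃⟩ :=
        M.run_of_table cv w.length (y ++ [Sym.ofW x]) (by simp; omega) p s'.2 hpq c₂ hs₂
          (by simp [hp₂]) (hg₂.agree M)
      refine ⟨y ++ [Sym.ofW x], c₃, by simp [hy], hTs, (hr₁.trans hr₂).trans hr₃,
        hg₂.congr M ht₃ hsub₃ hsn₃, by simp [hp₃, hy], hs₃⟩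

theorem nfa_of_steps (w : List A) (cf : M.Cfg) (hcf : cf.pos = w.length + 2) (hF : cf.st ∈ M.F) :
    ∀ (k : ℕ) (y : List (Sym A M.W)) (c : M.Cfg) (n : ℕ), y.length + k = w.length →
      M.Good w y c → c.pos = y.length + 1 →
      (M.table cv y, c.st) ∈ (M.toNFA cv).evalFrom (M.toNFA cv).start (w.take y.length) →
      M.Steps cv w.length n c cf → w ∈ (M.toNFA cv).accepts := by
  intro k
  induction k with
  | zero =>
    intro y c n hk hgood hpos hmem hrun
    -- the head is on the right end-marker
    have hylen : y.length = w.length := by omega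
    have htape : c.tape c.pos = Sym.rend := by
      rw [hgood.1, hpos, if_neg (by omega), hylen, M.initTape_end]
    have hag : M.Agree w.length (y ++ [Sym.rend]) c := by
      have h := hgood.agree M
      refine ⟨fun j hj => ?_, fun j h1 h2 h3 => h.2 j h1 (by omega) h3⟩
      simp at hj
      by_cases hj2 : j ≤ y.length
      · rw [M.tp_snoc_le y _ j hj2]; exact h.1 j hj2
      · have : j = y.length + 1 := by omega
        subst this
        rw [tp_snoc_last, ← hpos]; exact htape
    obtain ⟨c', n', hrun', _, hT, hp', _, _, _⟩ :=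
      M.table_of_run cv w.length (y ++ [Sym.rend]) n c cf (by simp [hpos]) hag hrun
        (by simp [hcf]; omega)
    have hp'' : c'.pos = w.length + 2 := by simp [hp']; omega
    have : c' = cf := by
      cases hrun' with
      | refl => rfl
      | head hs _ =>
        have := hs.1
        omega
    subst this
    rw [table_snoc] at hT
    rw [NFA.mem_accepts]
    refine ⟨(M.table cv y, c.st), ⟨c'.st, hF, hT⟩, ?_⟩
    rw [hylen, List.take_length] at hmem
    exact hmem
  | succ k ih =>
    intro y c n hk hgood hpos hmem hrun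
    have hlt : y.length < w.length := by omega
    cases hrun with
    | refl => omega
    | @head n _ c₁ _ hs hrest =>
      obtain ⟨hle, x, d, hδ, h0, hp, hw, hnw, hseen⟩ := hs
      have htape : c.tape c.pos = Sym.inp w[y.length] := by
        rw [hgood.1, hpos, if_neg (by omega), M.initTape_letter w _ hlt]
      have hnotseen : c.pos ∉ c.seen := by
        rw [hgood.2 c.pos (by omega) (by omega)]
        omega
      have ht₁ := hw ⟨by omega, by omega, hnotseen⟩
      have hg₁ : M.Good w (y ++ [Sym.ofW x]) c₁ := hgood.first M hpos hlt x ht₁ hseen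
      rw [htape] at hδ
      have hext : ∀ q' : M.Q, ((d = true ∧ q' = c₁.st) ∨
          (d = false ∧ ∃ p, (c₁.st, p) ∈ M.table cv y ∧
            (p, q') ∈ M.table cv (y ++ [Sym.ofW x]))) →
          (M.table cv (y ++ [Sym.ofW x]), q') ∈
            (M.toNFA cv).evalFrom (M.toNFA cv).start (w.take (y ++ [(Sym.ofW x : Sym A M.W)]).length) := by
        intro q' hq'
        have hl : (y ++ [(Sym.ofW x : Sym A M.W)]).length = y.length + 1 := by simp
        rw [hl, List.take_succ_eq_append_getElem hlt, NFA.evalFrom_append,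
          NFA.evalFrom_singleton, NFA.mem_stepSet]
        refine ⟨(M.table cv y, c.st), hmem, c₁.st, x, d, hδ, ?_, hq'⟩
        simp only
        rw [table_snoc]
      cases d with
      | true =>
        refine ih (y ++ [Sym.ofW x]) c₁ n (by simp; omega) hg₁ (by simp [hp, hpos]) ?_ hrest
        exact hext _ (Or.inl ⟨rfl, rfl⟩)
      | false =>
        have hp₁ : c₁.pos = y.length := by simp [hp, hpos]
        obtain ⟨c₂, n₂, hr₂, hn₂, hT₂, hp₂, ht₂, hsub₂, hsn₂⟩ :=
          M.table_of_run cv w.length y n c₁ cf hp₁ ((hg₁.agree M).of_snoc M) hrest (by omega)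
        have hg₂ : M.Good w (y ++ [Sym.ofW x]) c₂ := by
          refine hg₁.congr M ht₂ hsub₂ ?_
          intro j hj
          rcases hsn₂ j hj with h | h
          · exact Or.inl h
          · right; simp; omega
        obtain ⟨c₃, n₃, hr₃, hn₃, hT₃, hp₃, ht₃, hsub₃, hsn₃⟩ :=
          M.table_of_run cv w.length (y ++ [Sym.ofW x]) n₂ c₂ cf (by simp [hp₂]) (hg₂.agree M) hr₂
            (by simp; omega)
        refine ih (y ++ [Sym.ofW x]) c₃ n₃ (by simp; omega) (hg₂.congr M ht₃ hsub₃ hsn₃)
          hp₃ ?_ hr₃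
        exact hext _ (Or.inr ⟨rfl, c₂.st, hT₂, hT₃⟩)

/-- The table automaton accepts the language of the machine. -/
theorem toNFA_accepts : (M.toNFA cv).accepts = M.lang cv := by
  ext w
  constructor
  · intro hw
    rw [NFA.mem_accepts] at hw
    obtain ⟨s, ⟨f, hf, hT⟩, hs⟩ := hw
    rw [← List.take_length (l := w)] at hs
    obtain ⟨y, c, hy, hTy, hreach, hgood, hpos, hst⟩ := M.reach_of_nfa cv w w.length le_rfl s hs
    have htape : c.tape c.pos = Sym.rend := by
      rw [hgood.1, hpos, if_neg (by omega), M.initTape_end]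
    have hag : M.Agree w.length (y ++ [Sym.rend]) c := by
      have h := hgood.agree M
      refine ⟨fun j hj => ?_, fun j h1 h2 h3 => h.2 j h1 (by omega) h3⟩
      simp at hj
      by_cases hj2 : j ≤ y.length
      · rw [M.tp_snoc_le y _ j hj2]; exact h.1 j hj2
      · have : j = y.length + 1 := by omega
        subst this
        rw [tp_snoc_last, hy, ← hpos]; exact htape
    rw [hTy, ← table_snoc, ← hst] at hT
    obtain ⟨c', hr', hs', hp', _, _, _⟩ :=
      M.run_of_table cv w.length (y ++ [Sym.rend]) (by simp; omega) c.st f hT c rfl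
        (by simp [hpos, hy]) hag
    exact ⟨c', hreach.trans hr', by rw [hp']; simp [hy], by rw [hs']; exact hf⟩
  · rintro ⟨cf, hreach, hpos, hF⟩
    obtain ⟨n, hn⟩ := M.exists_steps cv hreach
    refine M.nfa_of_steps cv w cf hpos hF w.length [] (M.init w) n (by simp) (M.good_init w)
      rfl ?_ hn
    simp [toNFA, init, table_nil]

end Mach

end Pool.Agent.P0036f5v2
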