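import Mathlib

/-!
# Decision trees with sharing

A decision tree asks for symbols at given distances and finally returns a Boolean.  Its cost is the
number of distinct inner subtrees.
-/

set_option autoImplicit false

namespace Pool.Agent.P0036f5v2

/-- decision trees over the symbols `α` -/
inductive DT (α : Type) : Type
  | ret (b : Bool)
  | ask (d : ℕ) (k : α → DT α)

namespace DT

variable {α : Type}

/-- evaluation with the view `v` (the symbol at distance `d` is `v d`) -/
def eval (v : ℕ → α) : DT α → Bool
  | ret b => b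
  | ask d k => (k (v d)).eval v

/-- sequential composition -/
def bind : DT α → (Bool → DT α) → DT α
  | ret b, f => f b
  | ask d k, f => ask d fun a => (k a).bind f

/-- the distinct inner subtrees -/
def asks : DT α → Set (DT α)
  | ret _ => ∅
  | ask d k => insert (ask d k) (⋃ a, (k a).asks)

/-- all asked distances lie in `1, …, n` -/
def Within (n : ℕ) : DT α → Prop
  | ret _ => True
  | ask d k => 1 ≤ d ∧ d ≤ n ∧ ∀ a, (k a).Within n

theorem Within.mono {n n' : ℕ} (h : n ≤ n') {t : DT α} (ht : t.Within n) : t.Within n' := by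
  induction t with
  | ret b => trivial
  | ask d k ih => exact ⟨ht.1, ht.2.1.trans h, fun a => ih a (ht.2.2 a)⟩

theorem eval_bind (v : ℕ → α) (t : DT α) (f : Bool → DT α) :
    (t.bind f).eval v = (f (t.eval v)).eval v := by
  induction t with
  | ret b => rfl
  | ask d k ih => exact ih (v d)

theorem within_bind {n : ℕ} {t : DT α} {f : Bool → DT α} (ht : t.Within n)
    (hf : ∀ b, (f b).Within n) : (t.bind f).Within n := by
  induction t with
  | ret b => exact hf b
  | ask d k ih => exact ⟨ht.1, ht.2.1, fun a => ih a (ht.2.2 a)⟩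

theorem asks_finite [Finite α] (t : DT α) : t.asks.Finite := by
  induction t with
  | ret b => exact Set.finite_empty
  | ask d k ih => exact (Set.finite_iUnion ih).insert _

theorem asks_bind_subset (t : DT α) (f : Bool → DT α) :
    (t.bind f).asks ⊆ (fun u => u.bind f) '' t.asks ∪ ((f true).asks ∪ (f false).asks) := by
  induction t with
  | ret b =>
    cases b
    · exact fun x hx => Or.inr (Or.inr hx)
    · exact fun x hx => Or.inr (Or.inl hx)
  | ask d k ih =>
    intro x hx
    rcases hx with hx | hx
    · left
      exact ⟨ask d k, Or.inl rfl, hx.symm⟩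
    · obtain ⟨a, ha⟩ := Set.mem_iUnion.1 hx
      rcases ih a ha with ⟨u, hu, rfl⟩ | h
      · left
        exact ⟨u, Or.inr (Set.mem_iUnion.2 ⟨a, hu⟩), rfl⟩
      · exact Or.inr h

/-- A child of an inner subtree is an inner subtree or a leaf. -/
theorem asks_child {t : DT α} {d : ℕ} {k : α → DT α} (h : ask d k ∈ t.asks) (a : α) :
    k a ∈ t.asks ∨ ∃ b, k a = ret b := by
  induction t with
  | ret b => exact absurd h (Set.notMem_empty _)
  | ask d' k' ih =>
    have aux : ∀ u : DT α, u ∈ u.asks ∨ ∃ b, u = ret b := by
      intro u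
      cases u with
      | ret b => exact Or.inr ⟨b, rfl⟩
      | ask d k => exact Or.inl (Or.inl rfl)
    rcases h with h | h
    · have h1 : d = d' ∧ k = k' := by
        injection h with h1 h2
        exact ⟨h1, h2⟩
      obtain ⟨rfl, rfl⟩ := h1
      rcases aux (k a) with h | h
      · exact Or.inl (Or.inr (Set.mem_iUnion.2 ⟨a, h⟩))
      · exact Or.inr h
    · obtain ⟨a', ha'⟩ := Set.mem_iUnion.1 h
      rcases ih a' ha' with h | h
      · exact Or.inl (Or.inr (Set.mem_iUnion.2 ⟨a', h⟩))
      · exact Or.inr h

theorem self_mem_asks (t : DT α) : t ∈ t.asks ∨ ∃ b, t = ret b := by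
  cases t with
  | ret b => exact Or.inr ⟨b, rfl⟩
  | ask d k => exact Or.inl (Or.inl rfl)

/-- the cost: number of distinct inner subtrees -/
noncomputable def nd (t : DT α) : ℕ := t.asks.ncard

theorem nd_ret (b : Bool) : (ret b : DT α).nd = 0 := Set.ncard_empty _

theorem nd_bind_le [Finite α] (t : DT α) (f : Bool → DT α) :
    (t.bind f).nd ≤ t.nd + ((f true).nd + (f false).nd) := by
  unfold nd
  have hfin : ((fun u => u.bind f) '' t.asks ∪ ((f true).asks ∪ (f false).asks)).Finite :=
    (t.asks_finite.image _).union ((asks_finite _).union (asks_finite _))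
  refine (Set.ncard_le_ncard (asks_bind_subset t f) hfin).trans ?_
  refine (Set.ncard_union_le _ _).trans ?_
  refine Nat.add_le_add (Set.ncard_image_le t.asks_finite) (Set.ncard_union_le _ _)

/-- conjunction -/
def and (t u : DT α) : DT α := t.bind fun b => if b then u else ret false

/-- disjunction -/
def or (t u : DT α) : DT α := t.bind fun b => if b then ret true else u

theorem eval_and (v : ℕ → α) (t u : DT α) : (t.and u).eval v = (t.eval v && u.eval v) := by
  unfold DT.and
  rw [eval_bind]
  cases t.eval v <;> simp [eval]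

theorem eval_or (v : ℕ → α) (t u : DT α) : (t.or u).eval v = (t.eval v || u.eval v) := by
  unfold DT.or
  rw [eval_bind]
  cases t.eval v <;> simp [eval]

theorem nd_and_le [Finite α] (t u : DT α) : (t.and u).nd ≤ t.nd + u.nd := by
  refine (nd_bind_le _ _).trans ?_
  simp [nd_ret]

theorem nd_or_le [Finite α] (t u : DT α) : (t.or u).nd ≤ t.nd + u.nd := by
  refine (nd_bind_le _ _).trans ?_
  simp [nd_ret]

theorem within_and {n : ℕ} {t u : DT α} (ht : t.Within n) (hu : u.Within n) :
    (t.and u).Within n := by
  refine within_bind ht fun b => ?_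
  cases b
  · trivial
  · exact hu

theorem within_or {n : ℕ} {t u : DT α} (ht : t.Within n) (hu : u.Within n) :
    (t.or u).Within n := by
  refine within_bind ht fun b => ?_
  cases b
  · exact hu
  · trivial

/-- disjunction over `x < n` -/
def orN (f : ℕ → DT α) : ℕ → DT α
  | 0 => ret false
  | n + 1 => (f n).or (orN f n)

theorem eval_orN (v : ℕ → α) (f : ℕ → DT α) (n : ℕ) :
    (orN f n).eval v = true ↔ ∃ x < n, (f x).eval v = true := by
  induction n with
  | zero => simp [orN, eval]
  | succ n ih =>
    rw [orN, eval_or, Bool.or_eq_true, ih]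
    constructor
    · rintro (h | ⟨x, hx, h⟩)
      · exact ⟨n, by omega, h⟩
      · exact ⟨x, by omega, h⟩
    · rintro ⟨x, hx, h⟩
      by_cases hxn : x = n
      · left; rw [← hxn]; exact h
      · right; exact ⟨x, by omega, h⟩

theorem nd_orN_le [Finite α] (f : ℕ → DT α) (n c : ℕ) (h : ∀ x < n, (f x).nd ≤ c) :
    (orN f n).nd ≤ n * c := by
  induction n with
  | zero => simp [orN, nd_ret]
  | succ n ih =>
    rw [orN]
    refine (nd_or_le _ _).trans ?_
    have h1 := h n (by omega)
    have h2 := ih fun x hx => h x (by omega)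
    rw [Nat.succ_mul]
    omega

theorem within_orN {m : ℕ} (f : ℕ → DT α) (n : ℕ) (h : ∀ x < n, (f x).Within m) :
    (orN f n).Within m := by
  induction n with
  | zero => trivial
  | succ n ih => exact within_or (h n (by omega)) (ih fun x hx => h x (by omega))

end DT

end Pool.Agent.P0036f5v2
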