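import Pool.Agent.Lib.P0036f5v2.Defs
import Pool.Agent.Lib.P0036f5v2.Tree

/-!
# Deterministic machines driven by decision trees

A `Prog` describes a deterministic machine.  At the first visit of a letter cell it writes the
letter together with a bit; the bit for the next cell is obtained by evaluating a decision tree on
the cells to the left of the frontier.
-/

set_option autoImplicit false

namespace Pool.Agent.P0036f5v2

open Relation

/-- tree-driven programs: `nxt` updates the phase, `bit r` computes the bit written in phase `r`,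
`acc r` decides acceptance if the input ends in phase `r`. -/
structure Prog (A : Type) where
  nxt : ℕ → ℕ
  b0 : Bool
  bit : ℕ → DT (Option (A × Bool))
  acc : ℕ → DT (Option (A × Bool))

/-- the states of the machine of a program -/
inductive PSt (A : Type) : Type
  | ready (r : ℕ) (b : Bool)
  | eval (k : Bool) (r : ℕ) (t : DT (Option (A × Bool))) (h : ℕ)
  | done

namespace Prog

variable {A : Type} (P : Prog A) (cv : Bool)

/-- the symbol to be written back in a frozen cell -/
def wb {A W : Type} (g : Sym A (Option W)) : A ⊕ Option W :=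
  match g with
  | .inp a => .inl a
  | .wrk x => .inr x
  | .lend => .inr none
  | .rend => .inr none

theorem okW_wb {A W : Type} (cv : Bool) (g : Sym A (Option W)) : OkW cv g (wb g) := by
  intro _ h1 h2
  cases g with
  | inp a => rfl
  | wrk x => rfl
  | lend => exact absurd rfl h1
  | rend => exact absurd rfl h2

/-- the transition function -/
def tr : PSt A → Sym A (Option (A × Bool)) →
    Option (PSt A × (A ⊕ Option (A × Bool)) × Bool)
  | .ready r b, .inp a =>
      some (.eval false (P.nxt r) (P.bit (P.nxt r)) 2, .inr (some (a, b)), false)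
  | .ready r _, .rend => some (.eval true r (P.acc r) 1, .inr none, false)
  | .ready _ _, .wrk _ => none
  | .ready _ _, .lend => none
  | .eval k r (.ret b) h, g =>
      if h = 1 then
        if k = true then
          if b = true then some (.done, wb g, true) else none
        else some (.ready r b, wb g, true)
      else some (.eval k r (.ret b) (h - 1), wb g, true)
  | .eval k r (.ask d f) h, g =>
      if h < d then some (.eval k r (.ask d f) (h + 1), wb g, false)
      else if d < h then some (.eval k r (.ask d f) (h - 1), wb g, true)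
      else match g with
        | .wrk x => some (.eval k r (f x) (h + 1), .inr x, false)
        | _ => none
  | .done, g => some (.done, wb g, true)

/-- the machine of a program -/
@[reducible] def mach : Mach A where
  Q := PSt A
  W := Option (A × Bool)
  δ := fun q g => {x | P.tr q g = some x}
  qI := .ready 0 P.b0
  F := {.done}

theorem mach_det : P.mach.Det := by
  intro q s x hx y hy
  have hx' : P.tr q s = some x := hx
  have hy' : P.tr q s = some y := hy
  rw [hx'] at hy'
  exact Option.some.inj hy'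

/-- content written at the letter with index `i` -/
def cellv (w : List A) (β : ℕ → Bool) (i : ℕ) : Option (A × Bool) :=
  (w[i]?).map fun a => (a, β i)

/-- what is seen at distance `d` from the frontier, when `n` letters have been visited -/
def view (w : List A) (β : ℕ → Bool) (n d : ℕ) : Option (A × Bool) := cellv w β (n - d)

/-- the first `n` letter cells carry the computed bits, the rest of the tape is untouched -/
def PGood (w : List A) (β : ℕ → Bool) (n : ℕ) (c : P.mach.Cfg) : Prop :=
  (∀ j, c.tape j = if 1 ≤ j ∧ j ≤ n then Sym.wrk (cellv w β (j - 1)) else P.mach.initTape w j) ∧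
    ∀ j, 1 ≤ j → j ≤ w.length → (j ∈ c.seen ↔ j ≤ n)

/-- a move inside the visited part of the tape -/
theorem step_inner {w : List A} {β : ℕ → Bool} {n : ℕ} (hn : n ≤ w.length) {c : P.mach.Cfg}
    (hg : P.PGood w β n c) (hpos : c.pos ≤ n ∨ c.pos = w.length + 1) (q : PSt A)
    (d : Bool) (h0 : c.pos = 0 → d = true)
    (htr : P.tr c.st (c.tape c.pos) = some (q, wb (c.tape c.pos), d)) :
    ∃ c' : P.mach.Cfg, P.mach.Step cv w.length c c' ∧ c'.st = q ∧
      c'.pos = (if d = true then c.pos + 1 else c.pos - 1) ∧ P.PGood w β n c' := by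
  have hno : ¬ (1 ≤ c.pos ∧ c.pos ≤ w.length ∧ c.pos ∉ c.seen) := by
    rintro ⟨h1, h2, h3⟩
    apply h3
    rw [hg.2 c.pos h1 h2]
    rcases hpos with h | h
    · exact h
    · omega
  refine ⟨⟨q, if d = true then c.pos + 1 else c.pos - 1, c.tape, insert c.pos c.seen⟩, ?_, rfl,
    rfl, ?_⟩
  · refine ⟨?_, wb (c.tape c.pos), d, htr, h0, rfl, fun h => absurd h hno,
      fun _ => ⟨rfl, okW_wb cv _⟩, rfl⟩
    rcases hpos with h | h <;> omega
  · refine ⟨hg.1, fun j h1 h2 => ?_⟩
    constructor
    · rintro (h | h)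
      · rcases hpos with h' | h' <;> omega
      · exact (hg.2 j h1 h2).1 h
    · intro h
      exact Or.inr ((hg.2 j h1 h2).2 h)

/-- walking to the queried distance -/
theorem walk_ask {w : List A} {β : ℕ → Bool} {n : ℕ} (hn : n ≤ w.length) (k : Bool) (r d : ℕ)
    (f : Option (A × Bool) → DT (Option (A × Bool))) (hd : 1 ≤ d) (hdn : d ≤ n) :
    ∀ (e h : ℕ) (c : P.mach.Cfg), (h = d + e ∨ d = h + e) → 1 ≤ h → h ≤ n + 1 →
      c.st = PSt.eval k r (.ask d f) h → c.pos + h = n + 1 → P.PGood w β n c →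
      ∃ c' : P.mach.Cfg, ReflTransGen (P.mach.Step cv w.length) c c' ∧
        c'.st = PSt.eval k r (.ask d f) d ∧ c'.pos + d = n + 1 ∧ P.PGood w β n c' := by
  intro e
  induction e with
  | zero =>
    intro h c he h1 h2 hst hpos hg
    have : h = d := by omega
    subst this
    exact ⟨c, ReflTransGen.refl, hst, hpos, hg⟩
  | succ e ih =>
    intro h c he h1 h2 hst hpos hg
    rcases he with he | he
    · -- `h > d`: move right
      obtain ⟨c₁, hs₁, hst₁, hp₁, hg₁⟩ := P.step_inner cv hn hg (Or.inl (by omega))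
        (.eval k r (.ask d f) (h - 1)) true (fun _ => rfl) (by
          rw [hst]
          have e1 : ¬ (h < d) := by omega
          have e2 : d < h := by omega
          simp [tr, e1, e2])
      obtain ⟨c₂, hr₂, hst₂, hp₂, hg₂⟩ := ih (h - 1) c₁ (by omega) (by omega) (by omega) hst₁
        (by simp at hp₁; omega) hg₁
      exact ⟨c₂, ReflTransGen.head hs₁ hr₂, hst₂, hp₂, hg₂⟩
    · -- `h < d`: move left
      obtain ⟨c₁, hs₁, hst₁, hp₁, hg₁⟩ := P.step_inner cv hn hg (Or.inl (by omega))
        (.eval k r (.ask d f) (h + 1)) false (fun h0 => by omega) (by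
          rw [hst]
          have e1 : h < d := by omega
          simp [tr, e1])
      obtain ⟨c₂, hr₂, hst₂, hp₂, hg₂⟩ := ih (h + 1) c₁ (by omega) (by omega) (by omega) hst₁
        (by simp at hp₁; omega) hg₁
      exact ⟨c₂, ReflTransGen.head hs₁ hr₂, hst₂, hp₂, hg₂⟩

/-- evaluation of a tree -/
theorem run_eval {w : List A} {β : ℕ → Bool} {n : ℕ} (hn : n ≤ w.length) (k : Bool) (r : ℕ)
    (t : DT (Option (A × Bool))) :
    t.Within n → ∀ (h : ℕ) (c : P.mach.Cfg), 1 ≤ h → h ≤ n + 1 →
      c.st = PSt.eval k r t h → c.pos + h = n + 1 → P.PGood w β n c →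
      ∃ (c' : P.mach.Cfg) (h' : ℕ), ReflTransGen (P.mach.Step cv w.length) c c' ∧ 1 ≤ h' ∧
        h' ≤ n + 1 ∧ c'.st = PSt.eval k r (.ret (t.eval (view w β n))) h' ∧
        c'.pos + h' = n + 1 ∧ P.PGood w β n c' := by
  induction t with
  | ret b =>
    intro _ h c h1 h2 hst hpos hg
    exact ⟨c, h, ReflTransGen.refl, h1, h2, hst, hpos, hg⟩
  | ask d f ih =>
    intro hW h c h1 h2 hst hpos hg
    obtain ⟨hd1, hdn, hf⟩ := hW
    obtain ⟨c₁, hr₁, hst₁, hp₁, hg₁⟩ : ∃ c' : P.mach.Cfg,
        ReflTransGen (P.mach.Step cv w.length) c c' ∧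
        c'.st = PSt.eval k r (.ask d f) d ∧ c'.pos + d = n + 1 ∧ P.PGood w β n c' := by
      rcases le_total h d with hle | hle
      · obtain ⟨e, he⟩ := Nat.exists_eq_add_of_le hle
        exact P.walk_ask cv hn k r d f hd1 hdn e h c (Or.inr he) h1 h2 hst hpos hg
      · obtain ⟨e, he⟩ := Nat.exists_eq_add_of_le hle
        exact P.walk_ask cv hn k r d f hd1 hdn e h c (Or.inl he) h1 h2 hst hpos hg
    have htape : c₁.tape c₁.pos = Sym.wrk (view w β n d) := by
      rw [hg₁.1, if_pos (by omega)]
      unfold view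
      congr 2
      omega
    obtain ⟨c₂, hs₂, hst₂, hp₂, hg₂⟩ := P.step_inner cv hn hg₁ (Or.inl (by omega))
      (.eval k r (f (view w β n d)) (d + 1)) false (fun h0 => by omega) (by
        rw [hst₁, htape]
        simp [tr, wb])
    obtain ⟨c₃, h', hr₃, h1', h2', hst₃, hp₃, hg₃⟩ := ih (view w β n d) (hf _) (d + 1) c₂
      (by omega) (by omega) hst₂ (by simp at hp₂; omega) hg₂
    exact ⟨c₃, h', (hr₁.tail hs₂).trans hr₃, h1', h2', hst₃, hp₃, hg₃⟩

/-- returning towards the frontier with a result -/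
theorem walk_ret {w : List A} {β : ℕ → Bool} {n : ℕ} (hn : n ≤ w.length) (k : Bool) (r : ℕ)
    (b : Bool) :
    ∀ (h : ℕ) (c : P.mach.Cfg), h + 1 ≤ n + 1 → c.st = PSt.eval k r (.ret b) (h + 1) →
      c.pos + (h + 1) = n + 1 → P.PGood w β n c →
      ∃ c' : P.mach.Cfg, ReflTransGen (P.mach.Step cv w.length) c c' ∧
        c'.st = PSt.eval k r (.ret b) 1 ∧ c'.pos = n ∧ P.PGood w β n c' := by
  intro h
  induction h with
  | zero =>
    intro c h2 hst hpos hg
    exact ⟨c, ReflTransGen.refl, hst, by omega, hg⟩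
  | succ h ih =>
    intro c h2 hst hpos hg
    obtain ⟨c₁, hs₁, hst₁, hp₁, hg₁⟩ := P.step_inner cv hn hg (Or.inl (by omega))
      (.eval k r (.ret b) (h + 1)) true (fun _ => rfl) (by
        rw [hst]
        simp [tr])
    obtain ⟨c₂, hr₂, hst₂, hp₂, hg₂⟩ := ih c₁ (by omega) hst₁ (by simp at hp₁; omega) hg₁
    exact ⟨c₂, ReflTransGen.head hs₁ hr₂, hst₂, hp₂, hg₂⟩

/-- the phase after `i` letters -/
def ph : ℕ → ℕ
  | 0 => 0
  | i + 1 => P.nxt (ph i)

/-- The machine reaches the frontier with the correct bit. -/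
theorem reach_frontier (w : List A) (β : ℕ → Bool) (hβ0 : β 0 = P.b0)
    (hbit : ∀ i, i < w.length → (P.bit (P.ph (i + 1))).Within (i + 1) ∧
      (P.bit (P.ph (i + 1))).eval (view w β (i + 1)) = β (i + 1)) :
    ∀ i, i ≤ w.length → ∃ c : P.mach.Cfg,
      ReflTransGen (P.mach.Step cv w.length) (P.mach.init w) c ∧
      c.st = PSt.ready (P.ph i) (β i) ∧ c.pos = i + 1 ∧ P.PGood w β i c := by
  intro i
  induction i with
  | zero =>
    intro _
    refine ⟨P.mach.init w, ReflTransGen.refl, ?_, rfl, ?_, ?_⟩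
    · rw [hβ0]; rfl
    · intro j
      rw [if_neg (by omega)]
      rfl
    · intro j h1 h2
      simp [Mach.init]
      omega
  | succ i ih =>
    intro hi
    obtain ⟨c, hr, hst, hpos, hg⟩ := ih (by omega)
    have hi' : i < w.length := by omega
    have htape : c.tape c.pos = Sym.inp w[i] := by
      rw [hg.1, if_neg (by omega), hpos]
      simp [Mach.initTape, List.getElem?_eq_getElem hi']
    have hns : c.pos ∉ c.seen := by
      rw [hg.2 c.pos (by omega) (by omega)]
      omega
    -- first visit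
    let c₁ : P.mach.Cfg := ⟨.eval false (P.nxt (P.ph i)) (P.bit (P.nxt (P.ph i))) 2, i,
      Function.update c.tape c.pos (Sym.ofW (.inr (some (w[i], β i)))), insert c.pos c.seen⟩
    have hstep : P.mach.Step cv w.length c c₁ := by
      refine ⟨by omega, .inr (some (w[i], β i)), false, ?_, by intro h; omega, by simp [c₁, hpos],
        fun _ => rfl, fun h => absurd ⟨by omega, by omega, hns⟩ h, rfl⟩
      show P.tr c.st (c.tape c.pos) = _
      rw [hst, htape]
      rfl
    have hg₁ : P.PGood w β (i + 1) c₁ := by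
      refine ⟨fun j => ?_, fun j h1 h2 => ?_⟩
      · by_cases hj : j = i + 1
        · subst hj
          rw [if_pos (by omega)]
          simp only [c₁]
          rw [hpos, Function.update_self]
          simp [Sym.ofW, cellv, List.getElem?_eq_getElem hi']
        · simp only [c₁]
          rw [hpos, Function.update_of_ne hj, hg.1 j]
          by_cases hj2 : 1 ≤ j ∧ j ≤ i
          · rw [if_pos hj2, if_pos (by omega)]
          · rw [if_neg hj2, if_neg (by omega)]
      · simp only [c₁]
        rw [hpos]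
        constructor
        · rintro (h' | h')
          · omega
          · have := (hg.2 j h1 h2).1 h'; omega
        · intro h'
          by_cases hj : j = i + 1
          · left; exact hj
          · right; exact (hg.2 j h1 h2).2 (by omega)
    obtain ⟨hW, hE⟩ := hbit i hi'
    obtain ⟨c₂, h', hr₂, h1', h2', hst₂, hp₂, hg₂⟩ := P.run_eval cv (n := i + 1) (by omega) false
      (P.ph (i + 1)) (P.bit (P.ph (i + 1))) hW 2 c₁ (by omega) (by omega) rfl
      (show i + 2 = i + 1 + 1 by omega) hg₁
    obtain ⟨h'', rfl⟩ : ∃ h'', h' = h'' + 1 := ⟨h' - 1, by omega⟩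
    obtain ⟨c₃, hr₃, hst₃, hp₃, hg₃⟩ := P.walk_ret cv (n := i + 1) (by omega) false (P.ph (i + 1)) _
      h'' c₂ (by omega) hst₂ hp₂ hg₂
    obtain ⟨c₄, hs₄, hst₄, hp₄, hg₄⟩ := P.step_inner cv (n := i + 1) (by omega) hg₃
      (Or.inl (by omega)) (.ready (P.ph (i + 1)) (β (i + 1))) true (fun _ => rfl) (by
        rw [hst₃, hE]
        simp [tr])
    refine ⟨c₄, (((hr.tail hstep).trans hr₂).trans hr₃).tail hs₄, hst₄, ?_, hg₄⟩
    rw [hp₄]
    simp [hp₃]

end Prog

namespace Mach

variable {A : Type} {M : Mach A} {cv : Bool}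

theorem step_unique (hM : M.Det) {m : ℕ} {c c₁ c₂ : M.Cfg} (h₁ : M.Step cv m c c₁)
    (h₂ : M.Step cv m c c₂) : c₁ = c₂ := by
  obtain ⟨_, x₁, d₁, hδ₁, _, hp₁, hw₁, hn₁, hs₁⟩ := h₁
  obtain ⟨_, x₂, d₂, hδ₂, _, hp₂, hw₂, hn₂, hs₂⟩ := h₂
  have h := hM _ _ hδ₁ hδ₂
  have e1 : c₁.st = c₂.st := congrArg (fun t => t.1) h
  have e2 : x₁ = x₂ := congrArg (fun t => t.2.1) h
  have e3 : d₁ = d₂ := congrArg (fun t => t.2.2) h
  subst e2 e3
  have e4 : c₁.tape = c₂.tape := by
    by_cases hc : 1 ≤ c.pos ∧ c.pos ≤ m ∧ c.pos ∉ c.seen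
    · rw [hw₁ hc, hw₂ hc]
    · rw [(hn₁ hc).1, (hn₂ hc).1]
  cases c₁
  cases c₂
  simp only at e1 e4 hp₁ hp₂ hs₁ hs₂
  subst e1 e4
  rw [hp₁, hp₂, hs₁, hs₂]

/-- A deterministic machine that reaches a stuck configuration on the tape rejects. -/
theorem not_mem_lang_of_stuck (hM : M.Det) (w : List A) (c : M.Cfg)
    (hr : ReflTransGen (M.Step cv w.length) (M.init w) c) (hstuck : ∀ c', ¬ M.Step cv w.length c c')
    (hpos : c.pos ≤ w.length + 1) : w ∉ M.lang cv := by
  rintro ⟨cf, hcf, hp, _⟩
  have hcf_stuck : ∀ c', ¬ M.Step cv w.length cf c' := by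
    intro c' h
    have := h.1
    omega
  have hu : Relator.RightUnique (M.Step cv w.length) := fun a b c h₁ h₂ => step_unique hM h₁ h₂
  rcases ReflTransGen.total_of_right_unique hu hr hcf with h | h
  · rcases h.cases_head with h | ⟨x, hx, _⟩
    · rw [h] at hpos; omega
    · exact hstuck x hx
  · rcases h.cases_head with h | ⟨x, hx, _⟩
    · rw [← h] at hpos; omega
    · exact hcf_stuck x hx

end Mach

namespace Prog

variable {A : Type} (P : Prog A) (cv : Bool)

/-- The language of the machine of a program. -/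
theorem mem_lang (w : List A) (β : ℕ → Bool) (hβ0 : β 0 = P.b0)
    (hbit : ∀ i, i < w.length → (P.bit (P.ph (i + 1))).Within (i + 1) ∧
      (P.bit (P.ph (i + 1))).eval (view w β (i + 1)) = β (i + 1))
    (hacc : (P.acc (P.ph w.length)).Within w.length) :
    w ∈ P.mach.lang cv ↔ (P.acc (P.ph w.length)).eval (view w β w.length) = true := by
  obtain ⟨c, hr, hst, hpos, hg⟩ := P.reach_frontier cv w β hβ0 hbit w.length le_rfl
  have htape : c.tape c.pos = Sym.rend := by
    rw [hg.1, if_neg (by omega), hpos]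
    simp [Mach.initTape]
  obtain ⟨c₁, hs₁, hst₁, hp₁, hg₁⟩ := P.step_inner cv le_rfl hg (Or.inr hpos)
    (.eval true (P.ph w.length) (P.acc (P.ph w.length)) 1) false
    (fun h0 => by omega) (by rw [hst, htape]; rfl)
  obtain ⟨c₂, h', hr₂, h1', h2', hst₂, hp₂, hg₂⟩ := P.run_eval cv le_rfl true (P.ph w.length)
    (P.acc (P.ph w.length)) hacc 1 c₁ le_rfl (by omega) hst₁ (by simp at hp₁; omega) hg₁
  obtain ⟨h'', rfl⟩ : ∃ h'', h' = h'' + 1 := ⟨h' - 1, by omega⟩
  obtain ⟨c₃, hr₃, hst₃, hp₃, hg₃⟩ := P.walk_ret cv le_rfl true (P.ph w.length) _ h'' c₂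
    (by omega) hst₂ hp₂ hg₂
  have hreach := ((hr.tail hs₁).trans hr₂).trans hr₃
  cases hv : (P.acc (P.ph w.length)).eval (view w β w.length) with
  | true =>
    rw [hv] at hst₃
    obtain ⟨c₄, hs₄, hst₄, hp₄, hg₄⟩ := P.step_inner cv le_rfl hg₃ (Or.inl (by omega)) .done
      true (fun _ => rfl) (by rw [hst₃]; simp [tr])
    have hp₄' : c₄.pos = w.length + 1 := by rw [hp₄]; simp [hp₃]
    obtain ⟨c₅, hs₅, hst₅, hp₅, hg₅⟩ := P.step_inner cv le_rfl hg₄ (Or.inr hp₄') .done
      true (fun _ => rfl) (by rw [hst₄]; simp [tr])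
    refine ⟨fun _ => rfl, fun _ => ⟨c₅, (hreach.tail hs₄).tail hs₅, ?_, ?_⟩⟩
    · rw [hp₅, hp₄']; simp
    · rw [hst₅]; exact Set.mem_singleton _
  | false =>
    rw [hv] at hst₃
    refine ⟨fun h => ?_, fun h => by simp at h⟩
    exfalso
    refine Mach.not_mem_lang_of_stuck P.mach_det w c₃ hreach ?_ (by omega) h
    rintro c' ⟨_, x, d, hδ, _⟩
    have : P.tr c₃.st (c₃.tape c₃.pos) = some (c'.st, x, d) := hδ
    rw [hst₃] at this
    simp [tr] at this

end Prog

end Pool.Agent.P0036f5v2
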