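import Pool.Agent.Lib.P0036f5v2.Restrict
import Pool.Agent.Lib.P0036f5v2.Prog

/-!
# A small 1-limited automaton for a language with many residuals

The language `wit n` over `{0, 1, separator}` consists of the words `u x v x` with `|x| = n` and
`v` nonempty.  The machine marks a factor `x`, guesses where the last block starts and compares
letter by letter.
-/

set_option autoImplicit false

namespace Pool.Agent.P0036f5v2

open Relation

/-- words `u x v x` with `|x| = n`, `v` nonempty -/
def wit (n : ℕ) : Language (Option Bool) :=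
  {w | ∃ p g, p + n < g ∧ g + n = w.length ∧ ∀ i < n, w.getD (p + i) none = w.getD (g + i) none}

/-- states of the machine -/
inductive LS : Type
  | scan
  | mark (i : ℕ)
  | mid
  | go (e : ℕ)
  | dn (i : ℕ)
  | up (c : Option Bool) (i : ℕ)
  | rt (c : Option Bool) (e : ℕ)
  | fin

/-- first choice -/
def wtr1 (n : ℕ) : LS → Sym (Option Bool) (Option (Option Bool)) →
    Option (LS × (Option Bool ⊕ Option (Option Bool)) × Bool)
  | .scan, .inp _ => some (.scan, .inr none, true)
  | .mark i, .inp a =>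
      if i + 1 = n then some (.mid, .inr (some a), true)
      else some (.mark (i + 1), .inr (some a), true)
  | .mid, .inp _ => some (.mid, .inr none, true)
  | .go e, .wrk none => some (.go e, .inr none, false)
  | .go e, .wrk (some a) =>
      if e ≤ 1 then some (.up a 1, .inr (some a), true)
      else some (.dn (e - 2), .inr (some a), false)
  | .dn i, .wrk (some a) =>
      if i = 0 then some (.up a 1, .inr (some a), true)
      else some (.dn (i - 1), .inr (some a), false)
  | .up c i, .wrk (some b) => if i < n then some (.up c (i + 1), .inr (some b), true) else none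
  | .up c i, .wrk none => some (.rt c i, .inr none, true)
  | .rt c e, .wrk none => some (.rt c e, .inr none, true)
  | .rt c e, .inp a =>
      if a = c then
        if e ≤ 1 then some (.fin, .inr none, true) else some (.go (e - 1), .inr none, false)
      else none
  | .fin, .rend => some (.fin, .inr none, true)
  | _, _ => none

/-- second choice -/
def wtr2 (n : ℕ) : LS → Sym (Option Bool) (Option (Option Bool)) →
    Option (LS × (Option Bool ⊕ Option (Option Bool)) × Bool)
  | .scan, .inp a =>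
      if 1 = n then some (.mid, .inr (some a), true) else some (.mark 1, .inr (some a), true)
  | .mid, .inp _ => some (.go n, .inr none, false)
  | _, _ => none

/-- the machine -/
@[reducible] def wm (n : ℕ) : Mach (Option Bool) where
  Q := LS
  W := Option (Option Bool)
  δ := fun q s => {x | wtr1 n q s = some x ∨ wtr2 n q s = some x}
  qI := .scan
  F := {.fin}

variable {n : ℕ} {w : List (Option Bool)} {cv : Bool}

/-- the tape: `f` cells visited, the cells `p + 1, …, p + k` are marked -/
def TP (n : ℕ) (w : List (Option Bool)) (p k f : ℕ) (c : (wm n).Cfg) : Prop :=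
  (∀ j, c.tape j = if 1 ≤ j ∧ j ≤ f then
      (if p < j ∧ j ≤ p + k then Sym.wrk (some (w.getD (j - 1) none)) else Sym.wrk none)
    else (wm n).initTape w j) ∧
  ∀ j, 1 ≤ j → j ≤ w.length → (j ∈ c.seen ↔ j ≤ f)

theorem TP.marked {p k f : ℕ} {c : (wm n).Cfg} (h : TP n w p k f c) (h1 : p < c.pos)
    (h2 : c.pos ≤ p + k) (h3 : c.pos ≤ f) :
    c.tape c.pos = Sym.wrk (some (w.getD (c.pos - 1) none)) := by
  rw [h.1, if_pos ⟨by omega, h3⟩, if_pos ⟨h1, h2⟩]

theorem TP.plain {p k f : ℕ} {c : (wm n).Cfg} (h : TP n w p k f c) (h1 : p + k < c.pos)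
    (h3 : c.pos ≤ f) : c.tape c.pos = Sym.wrk none := by
  rw [h.1, if_pos ⟨by omega, h3⟩, if_neg (by omega)]

theorem TP.fresh {p k f : ℕ} {c : (wm n).Cfg} (h : TP n w p k f c) (h1 : c.pos = f + 1)
    (h2 : f < w.length) : c.tape c.pos = Sym.inp (w.getD f none) := by
  rw [h.1, if_neg (by omega), h1]
  simp [Mach.initTape, List.getElem?_eq_getElem h2]

theorem TP.atEnd {p k f : ℕ} {c : (wm n).Cfg} (h : TP n w p k f c) (h1 : c.pos = w.length + 1)
    (h2 : f ≤ w.length) : c.tape c.pos = Sym.rend := by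
  rw [h.1, if_neg (by omega), h1]
  simp [Mach.initTape]

/-- effect of a move inside the visited part or on the end-marker -/
theorem TP.inner {p k f : ℕ} {c c' : (wm n).Cfg} (h : TP n w p k f c)
    (hpos : c.pos ≤ f ∨ c.pos = w.length + 1) (_ : f ≤ w.length)
    (hw : ¬ (1 ≤ c.pos ∧ c.pos ≤ w.length ∧ c.pos ∉ c.seen) → c'.tape = c.tape)
    (hs : c'.seen = insert c.pos c.seen) : TP n w p k f c' := by
  have hno : ¬ (1 ≤ c.pos ∧ c.pos ≤ w.length ∧ c.pos ∉ c.seen) := by
    rintro ⟨h1, h2, h3⟩
    apply h3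
    rw [h.2 c.pos h1 h2]
    rcases hpos with h' | h'
    · exact h'
    · omega
  refine ⟨fun j => by rw [hw hno]; exact h.1 j, fun j h1 h2 => ?_⟩
  rw [hs]
  constructor
  · rintro (h' | h')
    · rcases hpos with h'' | h'' <;> omega
    · exact (h.2 j h1 h2).1 h'
  · intro h'
    exact Or.inr ((h.2 j h1 h2).2 h')

/-- effect of the first visit of a cell, writing the blank mark -/
theorem TP.first_plain {p k f : ℕ} {c c' : (wm n).Cfg} (h : TP n w p k f c)
    (hpos : c.pos = f + 1) (hf : f < w.length) (hk : p + k ≤ f)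
    (hw : (1 ≤ c.pos ∧ c.pos ≤ w.length ∧ c.pos ∉ c.seen) →
      c'.tape = Function.update c.tape c.pos (Sym.wrk none))
    (hs : c'.seen = insert c.pos c.seen) : TP n w p k (f + 1) c' := by
  have hns : c.pos ∉ c.seen := by
    rw [h.2 c.pos (by omega) (by omega)]
    omega
  have ht := hw ⟨by omega, by omega, hns⟩
  refine ⟨fun j => ?_, fun j h1 h2 => ?_⟩
  · rw [ht, hpos]
    by_cases hj : j = f + 1
    · subst hj
      rw [Function.update_self, if_pos (by omega), if_neg (by omega)]
    · rw [Function.update_of_ne hj, h.1 j]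
      by_cases h1 : 1 ≤ j ∧ j ≤ f
      · rw [if_pos h1, if_pos (show 1 ≤ j ∧ j ≤ f + 1 by omega)]
      · rw [if_neg h1, if_neg (show ¬ (1 ≤ j ∧ j ≤ f + 1) by omega)]
  · rw [hs, hpos]
    constructor
    · rintro (h' | h')
      · omega
      · have := (h.2 j h1 h2).1 h'; omega
    · intro h'
      by_cases hj : j = f + 1
      · left; exact hj
      · right; exact (h.2 j h1 h2).2 (by omega)

/-- effect of the first visit of a cell, marking it -/
theorem TP.first_mark {p k : ℕ} {c c' : (wm n).Cfg} (h : TP n w p k (p + k) c)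
    (hpos : c.pos = p + k + 1) (hf : p + k < w.length)
    (hw : (1 ≤ c.pos ∧ c.pos ≤ w.length ∧ c.pos ∉ c.seen) →
      c'.tape = Function.update c.tape c.pos (Sym.wrk (some (w.getD (p + k) none))))
    (hs : c'.seen = insert c.pos c.seen) : TP n w p (k + 1) (p + k + 1) c' := by
  have hns : c.pos ∉ c.seen := by
    rw [h.2 c.pos (by omega) (by omega)]
    omega
  have ht := hw ⟨by omega, by omega, hns⟩
  refine ⟨fun j => ?_, fun j h1 h2 => ?_⟩
  · rw [ht, hpos]
    by_cases hj : j = p + k + 1
    · subst hj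
      rw [Function.update_self, if_pos (by omega), if_pos (by omega)]
      rfl
    · rw [Function.update_of_ne hj, h.1 j]
      by_cases h1 : 1 ≤ j ∧ j ≤ p + k
      · rw [if_pos h1, if_pos (show 1 ≤ j ∧ j ≤ p + k + 1 by omega)]
        by_cases h2 : p < j ∧ j ≤ p + k
        · rw [if_pos h2, if_pos (show p < j ∧ j ≤ p + (k + 1) by omega)]
        · rw [if_neg h2, if_neg (show ¬ (p < j ∧ j ≤ p + (k + 1)) by omega)]
      · rw [if_neg h1, if_neg (show ¬ (1 ≤ j ∧ j ≤ p + k + 1) by omega)]
  · rw [hs, hpos]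
    constructor
    · rintro (h' | h')
      · omega
      · have := (h.2 j h1 h2).1 h'; omega
    · intro h'
      by_cases hj : j = p + k + 1
      · left; exact hj
      · right; exact (h.2 j h1 h2).2 (by omega)

/-- without marked cells the start of the zone is irrelevant -/
theorem TP.shift {p q f : ℕ} {c : (wm n).Cfg} (h : TP n w p 0 f c) : TP n w q 0 f c := by
  refine ⟨fun j => ?_, h.2⟩
  rw [h.1 j]
  by_cases h1 : 1 ≤ j ∧ j ≤ f
  · rw [if_pos h1, if_pos h1, if_neg (by omega), if_neg (by omega)]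
  · rw [if_neg h1, if_neg h1]

/-- the first `j` letters of the zone starting after `p` and of the block starting after `g`
agree -/
def ZZ (n : ℕ) (w : List (Option Bool)) (p g j : ℕ) : Prop :=
  p + n < g ∧ g + j ≤ w.length ∧ ∀ i < j, w.getD (p + i) none = w.getD (g + i) none

/-- the invariant -/
def Inv (n : ℕ) (w : List (Option Bool)) (c : (wm n).Cfg) : Prop :=
  match c.st with
  | .scan => ∃ f, f ≤ w.length ∧ TP n w 0 0 f c ∧ c.pos = f + 1
  | .mark i => ∃ p, p + i ≤ w.length ∧ 1 ≤ i ∧ i < n ∧ TP n w p i (p + i) c ∧ c.pos = p + i + 1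
  | .mid => ∃ p f, p + n ≤ f ∧ f ≤ w.length ∧ TP n w p n f c ∧ c.pos = f + 1
  | .go e => ∃ p g, 1 ≤ e ∧ e ≤ n ∧ ZZ n w p g (n - e) ∧ TP n w p n (g + (n - e)) c ∧
      p + n ≤ c.pos ∧ c.pos ≤ g + (n - e)
  | .dn i => ∃ p g e, 1 ≤ e ∧ e ≤ n ∧ i < e ∧ ZZ n w p g (n - e) ∧ TP n w p n (g + (n - e)) c ∧
      c.pos = p + (n - e) + 1 + i
  | .up a i => ∃ p g e, 1 ≤ e ∧ e ≤ n ∧ 1 ≤ i ∧ i ≤ e ∧ ZZ n w p g (n - e) ∧
      TP n w p n (g + (n - e)) c ∧ a = w.getD (p + (n - e)) none ∧ c.pos = p + (n - e) + 1 + i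
  | .rt a e => ∃ p g, 1 ≤ e ∧ e ≤ n ∧ ZZ n w p g (n - e) ∧
      TP n w p n (g + (n - e)) c ∧ a = w.getD (p + (n - e)) none ∧ p + n < c.pos ∧
      c.pos ≤ g + (n - e) + 1
  | .fin => ∃ p g, ZZ n w p g n ∧
      ((c.pos = g + n + 1 ∧ TP n w p n (g + n) c) ∨ (c.pos = w.length + 2 ∧ g + n = w.length))

theorem inv_init : Inv n w ((wm n).init w) := by
  refine ⟨0, by omega, ⟨fun j => ?_, fun j h1 h2 => ?_⟩, rfl⟩
  · rw [if_neg (by omega)]; rfl
  · simp [Mach.init]; omega

theorem inv_step (hn : 1 ≤ n) {c c' : (wm n).Cfg} (hI : Inv n w c)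
    (hs : (wm n).Step cv w.length c c') : Inv n w c' := by
  obtain ⟨hle, x, d, hδ, h0, hp, hw, hnw0, hseen⟩ := hs
  have hnw := fun h => (hnw0 h).1
  obtain ⟨q, pos, tape, seen⟩ := c
  obtain ⟨q', pos', tape', seen'⟩ := c'
  simp only at hle hδ h0 hp hw hnw hseen
  clear hnw0
  have hδ' : wtr1 n q (tape pos) = some (q', x, d) ∨ wtr2 n q (tape pos) = some (q', x, d) := hδ
  cases q with
  | scan =>
    obtain ⟨f, hf, hT, hpos⟩ := hI
    simp only at hpos
    rcases Nat.lt_or_ge f w.length with hlt | hge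
    · have ht := hT.fresh hpos hlt
      simp only at ht
      rw [ht] at hδ'
      rcases hδ' with h | h
      · simp only [wtr1, Option.some.injEq, Prod.mk.injEq] at h
        obtain ⟨rfl, rfl, rfl⟩ := h
        exact ⟨f + 1, hlt, hT.first_plain hpos hlt (by omega) hw hseen, by simp [hp, hpos]⟩
      · have hT' : TP n w f 0 (f + 0) ⟨LS.scan, pos, tape, seen⟩ := hT.shift
        simp only [wtr2] at h
        split_ifs at h with h1
        · simp only [Option.some.injEq, Prod.mk.injEq] at h
          obtain ⟨rfl, rfl, rfl⟩ := h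
          subst h1
          refine ⟨f, f + 1, by omega, hlt, ?_, by simp [hp, hpos]⟩
          exact hT'.first_mark hpos hlt hw hseen
        · simp only [Option.some.injEq, Prod.mk.injEq] at h
          obtain ⟨rfl, rfl, rfl⟩ := h
          refine ⟨f, by omega, by omega, by omega, ?_, by simp [hp, hpos]⟩
          exact hT'.first_mark hpos hlt hw hseen
    · have ht := hT.atEnd (by simp only; omega) (by omega)
      simp only at ht
      rw [ht] at hδ'
      rcases hδ' with h | h <;> simp [wtr1, wtr2] at h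
  | mark i =>
    obtain ⟨p, hle', h1i, hin, hT, hpos⟩ := hI
    simp only at hpos
    rcases Nat.lt_or_ge (p + i) w.length with hlt | hge
    · have ht := hT.fresh hpos hlt
      simp only at ht
      rw [ht] at hδ'
      rcases hδ' with h | h
      · simp only [wtr1] at h
        split_ifs at h with h1
        · simp only [Option.some.injEq, Prod.mk.injEq] at h
          obtain ⟨rfl, rfl, rfl⟩ := h
          refine ⟨p, p + i + 1, by omega, hlt, ?_, by simp [hp, hpos]⟩
          have := hT.first_mark (c' := ⟨LS.mid, pos', tape', seen'⟩) hpos hlt hw hseen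
          rw [h1] at this
          exact this
        · simp only [Option.some.injEq, Prod.mk.injEq] at h
          obtain ⟨rfl, rfl, rfl⟩ := h
          refine ⟨p, by omega, by omega, by omega, ?_, by simp [hp, hpos]; omega⟩
          exact hT.first_mark hpos hlt hw hseen
      · simp [wtr2] at h
    · have ht := hT.atEnd (by simp only; omega) (by omega)
      simp only at ht
      rw [ht] at hδ'
      rcases hδ' with h | h <;> simp [wtr1, wtr2] at h
  | mid =>
    obtain ⟨p, f, hpf, hf, hT, hpos⟩ := hI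
    simp only at hpos
    rcases Nat.lt_or_ge f w.length with hlt | hge
    · have ht := hT.fresh hpos hlt
      simp only at ht
      rw [ht] at hδ'
      rcases hδ' with h | h
      · simp only [wtr1, Option.some.injEq, Prod.mk.injEq] at h
        obtain ⟨rfl, rfl, rfl⟩ := h
        exact ⟨p, f + 1, by omega, hlt, hT.first_plain hpos hlt (by omega) hw hseen,
          by simp [hp, hpos]⟩
      · simp only [wtr2, Option.some.injEq, Prod.mk.injEq] at h
        obtain ⟨rfl, rfl, rfl⟩ := h
        refine ⟨p, f + 1, hn, le_rfl, ⟨by omega, by omega, fun i hi => by omega⟩, ?_, ?_, ?_⟩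
        · rw [Nat.sub_self]
          exact hT.first_plain hpos hlt (by omega) hw hseen
        · simp [hp, hpos]; omega
        · simp [hp, hpos]
    · have ht := hT.atEnd (by simp only; omega) (by omega)
      simp only at ht
      rw [ht] at hδ'
      rcases hδ' with h | h <;> simp [wtr1, wtr2] at h
  | go e =>
    obtain ⟨p, g, h1e, hen, hZ, hT, hp1, hp2⟩ := hI
    simp only at hp1 hp2
    obtain ⟨z1, z2, z3⟩ := hZ
    have hTi := hT.inner (c' := ⟨q', pos', tape', seen'⟩) (Or.inl hp2) z2 hnw hseen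
    rcases Nat.lt_or_ge (p + n) pos with hlt | hge
    · have ht := hT.plain (by simpa using hlt) hp2
      simp only at ht
      rw [ht] at hδ'
      rcases hδ' with h | h
      · simp only [wtr1, Option.some.injEq, Prod.mk.injEq] at h
        obtain ⟨rfl, rfl, rfl⟩ := h
        refine ⟨p, g, h1e, hen, ⟨z1, z2, z3⟩, hTi, ?_, ?_⟩
        · simp [hp]; omega
        · simp [hp]; omega
      · simp [wtr2] at h
    · have hpe : pos = p + n := by omega
      have ht := hT.marked (by simp only; omega) (by simp only; omega) hp2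
      simp only at ht
      rw [ht] at hδ'
      rcases hδ' with h | h
      · simp only [wtr1] at h
        split_ifs at h with h1
        · simp only [Option.some.injEq, Prod.mk.injEq] at h
          obtain ⟨rfl, rfl, rfl⟩ := h
          refine ⟨p, g, e, h1e, hen, le_rfl, h1e, ⟨z1, z2, z3⟩, hTi, ?_, ?_⟩
          · congr 1; omega
          · simp [hp]; omega
        · simp only [Option.some.injEq, Prod.mk.injEq] at h
          obtain ⟨rfl, rfl, rfl⟩ := h
          refine ⟨p, g, e, h1e, hen, by omega, ⟨z1, z2, z3⟩, hTi, ?_⟩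
          simp [hp]; omega
      · simp [wtr2] at h
  | dn i =>
    obtain ⟨p, g, e, h1e, hen, hie, hZ, hT, hpos⟩ := hI
    simp only at hpos
    obtain ⟨z1, z2, z3⟩ := hZ
    have hTi := hT.inner (c' := ⟨q', pos', tape', seen'⟩) (Or.inl (by simp only; omega)) z2
      hnw hseen
    have ht := hT.marked (by simp only; omega) (by simp only; omega) (by simp only; omega)
    simp only at ht
    rw [ht] at hδ'
    rcases hδ' with h | h
    · simp only [wtr1] at h
      split_ifs at h with h1
      · simp only [Option.some.injEq, Prod.mk.injEq] at h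
        obtain ⟨rfl, rfl, rfl⟩ := h
        refine ⟨p, g, e, h1e, hen, le_rfl, h1e, ⟨z1, z2, z3⟩, hTi, ?_, ?_⟩
        · congr 1; omega
        · simp [hp]; omega
      · simp only [Option.some.injEq, Prod.mk.injEq] at h
        obtain ⟨rfl, rfl, rfl⟩ := h
        refine ⟨p, g, e, h1e, hen, by omega, ⟨z1, z2, z3⟩, hTi, ?_⟩
        simp [hp]; omega
    · simp [wtr2] at h
  | up a i =>
    obtain ⟨p, g, e, h1e, hen, h1i, hie, hZ, hT, ha, hpos⟩ := hI
    simp only at hpos
    obtain ⟨z1, z2, z3⟩ := hZ
    have hTi := hT.inner (c' := ⟨q', pos', tape', seen'⟩) (Or.inl (by simp only; omega)) z2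
      hnw hseen
    rcases Nat.lt_or_ge i e with hlt | hge
    · have ht := hT.marked (by simp only; omega) (by simp only; omega) (by simp only; omega)
      simp only at ht
      rw [ht] at hδ'
      rcases hδ' with h | h
      · simp only [wtr1] at h
        split_ifs at h with h1
        simp only [Option.some.injEq, Prod.mk.injEq] at h
        obtain ⟨rfl, rfl, rfl⟩ := h
        refine ⟨p, g, e, h1e, hen, by omega, by omega, ⟨z1, z2, z3⟩, hTi, ha, ?_⟩
        simp [hp]; omega
      · simp [wtr2] at h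
    · have ht := hT.plain (by simp only; omega) (by simp only; omega)
      simp only at ht
      rw [ht] at hδ'
      have hie' : i = e := by omega
      subst hie'
      rcases hδ' with h | h
      · simp only [wtr1, Option.some.injEq, Prod.mk.injEq] at h
        obtain ⟨rfl, rfl, rfl⟩ := h
        refine ⟨p, g, h1e, hen, ⟨z1, z2, z3⟩, hTi, ha, ?_, ?_⟩
        · simp [hp]; omega
        · simp [hp]; omega
      · simp [wtr2] at h
  | rt a e =>
    obtain ⟨p, g, h1e, hen, hZ, hT, ha, hp1, hp2⟩ := hI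
    simp only at hp1 hp2
    obtain ⟨z1, z2, z3⟩ := hZ
    rcases Nat.lt_or_ge (g + (n - e)) pos with hlt | hge
    · have hpe : pos = g + (n - e) + 1 := by omega
      rcases Nat.lt_or_ge (g + (n - e)) w.length with hlt' | hge'
      · have ht := hT.fresh hpe hlt'
        simp only at ht
        rw [ht] at hδ'
        rcases hδ' with h | h
        · simp only [wtr1] at h
          split_ifs at h with h1 h2
          · simp only [Option.some.injEq, Prod.mk.injEq] at h
            obtain ⟨rfl, rfl, rfl⟩ := h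
            have he : e = 1 := by omega
            subst he
            have e1 : g + (n - 1) + 1 = g + n := by omega
            refine ⟨p, g, ⟨z1, by omega, fun i hi => ?_⟩, Or.inl ⟨?_, ?_⟩⟩
            · rcases Nat.lt_or_ge i (n - 1) with h | h
              · exact z3 i h
              · have : i = n - 1 := by omega
                subst this
                rw [← ha, h1]
            · simp [hp]; omega
            · rw [← e1]
              exact hT.first_plain hpe hlt' (by omega) hw hseen
          · simp only [Option.some.injEq, Prod.mk.injEq] at h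
            obtain ⟨rfl, rfl, rfl⟩ := h
            have e1 : n - (e - 1) = n - e + 1 := by omega
            refine ⟨p, g, by omega, by omega, ⟨z1, by omega, fun i hi => ?_⟩, ?_, ?_, ?_⟩
            · rcases Nat.lt_or_ge i (n - e) with h | h
              · exact z3 i h
              · have : i = n - e := by omega
                subst this
                rw [← ha, h1]
            · rw [e1, ← Nat.add_assoc]
              exact hT.first_plain hpe hlt' (by omega) hw hseen
            · simp [hp]; omega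
            · simp [hp]; omega
        · simp [wtr2] at h
      · have ht := hT.atEnd (by simp only; omega) (by omega)
        simp only at ht
        rw [ht] at hδ'
        rcases hδ' with h | h <;> simp [wtr1, wtr2] at h
    · have hTi := hT.inner (c' := ⟨q', pos', tape', seen'⟩) (Or.inl hge) z2 hnw hseen
      have ht := hT.plain (by simpa using hp1) hge
      simp only at ht
      rw [ht] at hδ'
      rcases hδ' with h | h
      · simp only [wtr1, Option.some.injEq, Prod.mk.injEq] at h
        obtain ⟨rfl, rfl, rfl⟩ := h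
        refine ⟨p, g, h1e, hen, ⟨z1, z2, z3⟩, hTi, ha, ?_, ?_⟩
        · simp [hp]; omega
        · simp [hp]; omega
      · simp [wtr2] at h
  | fin =>
    obtain ⟨p, g, ⟨z1, z2, z3⟩, hor⟩ := hI
    rcases hor with ⟨hpos, hT⟩ | ⟨hpos, _⟩
    · simp only at hpos
      rcases Nat.lt_or_ge (g + n) w.length with hlt | hge
      · have ht := hT.fresh hpos hlt
        simp only at ht
        rw [ht] at hδ'
        rcases hδ' with h | h <;> simp [wtr1, wtr2] at h
      · have ht := hT.atEnd (by simp only; omega) (by omega)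
        simp only at ht
        rw [ht] at hδ'
        rcases hδ' with h | h
        · simp only [wtr1, Option.some.injEq, Prod.mk.injEq] at h
          obtain ⟨rfl, rfl, rfl⟩ := h
          refine ⟨p, g, ⟨z1, z2, z3⟩, Or.inr ⟨?_, by omega⟩⟩
          simp [hp]; omega
        · simp [wtr2] at h
    · simp only at hpos
      omega

theorem wm_sound (hn : 1 ≤ n) (h : w ∈ (wm n).lang cv) : w ∈ wit n := by
  obtain ⟨c, hr, hpos, hF⟩ := h
  have hI : Inv n w c := by
    clear hpos hF
    induction hr with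
    | refl => exact inv_init
    | tail _ hs ih => exact inv_step hn ih hs
  obtain ⟨q, pos, tape, seen⟩ := c
  simp only at hpos hF
  have hq : q = LS.fin := hF
  subst hq
  obtain ⟨p, g, ⟨z1, z2, z3⟩, hor⟩ := hI
  rcases hor with ⟨hp, _⟩ | ⟨_, hg⟩
  · simp only at hp
    exact ⟨p, g, z1, by omega, z3⟩
  · exact ⟨p, g, z1, hg, z3⟩

/-! ### Completeness -/

/-- existence of a move inside the visited part -/
theorem go_inner {p k f : ℕ} {c : (wm n).Cfg} (hT : TP n w p k f c) (hf : f ≤ w.length)
    (hpos : c.pos ≤ f ∨ c.pos = w.length + 1) (q : LS)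
    (d : Bool) (h0 : c.pos = 0 → d = true)
    (htr : wtr1 n c.st (c.tape c.pos) = some (q, Prog.wb (c.tape c.pos), d)) :
    ∃ c' : (wm n).Cfg, (wm n).Step cv w.length c c' ∧ c'.st = q ∧
      c'.pos = (if d = true then c.pos + 1 else c.pos - 1) ∧ TP n w p k f c' := by
  have hno : ¬ (1 ≤ c.pos ∧ c.pos ≤ w.length ∧ c.pos ∉ c.seen) := by
    rintro ⟨h1, h2, h3⟩
    apply h3
    rw [hT.2 c.pos h1 h2]
    rcases hpos with h' | h'
    · exact h'
    · omega
  refine ⟨⟨q, if d = true then c.pos + 1 else c.pos - 1, c.tape, insert c.pos c.seen⟩,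
    ⟨by rcases hpos with h | h <;> omega, Prog.wb (c.tape c.pos), d, Or.inl htr, h0, rfl,
      fun h => absurd h hno, fun _ => ⟨rfl, Prog.okW_wb cv _⟩, rfl⟩, rfl, rfl, ?_⟩
  exact hT.inner hpos hf (fun _ => rfl) rfl

/-- existence of a first visit writing the blank mark -/
theorem go_first {p k f : ℕ} {c : (wm n).Cfg} (hT : TP n w p k f c) (hf : f < w.length)
    (hk : p + k ≤ f) (hpos : c.pos = f + 1) (q : LS) (d : Bool)
    (htr : wtr1 n c.st (c.tape c.pos) = some (q, .inr none, d) ∨
      wtr2 n c.st (c.tape c.pos) = some (q, .inr none, d)) :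
    ∃ c' : (wm n).Cfg, (wm n).Step cv w.length c c' ∧ c'.st = q ∧
      c'.pos = (if d = true then c.pos + 1 else c.pos - 1) ∧ TP n w p k (f + 1) c' := by
  have hns : c.pos ∉ c.seen := by
    rw [hT.2 c.pos (by omega) (by omega)]
    omega
  refine ⟨⟨q, if d = true then c.pos + 1 else c.pos - 1,
    Function.update c.tape c.pos (Sym.wrk none), insert c.pos c.seen⟩,
    ⟨by omega, .inr none, d, htr, fun h => by omega, rfl, fun _ => rfl,
      fun h => absurd ⟨by omega, by omega, hns⟩ h, rfl⟩, rfl, rfl, ?_⟩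
  exact hT.first_plain hpos hf hk (fun _ => rfl) rfl

/-- existence of a first visit marking the cell -/
theorem go_mark {p k : ℕ} {c : (wm n).Cfg} (hT : TP n w p k (p + k) c) (hf : p + k < w.length)
    (hpos : c.pos = p + k + 1) (q : LS)
    (htr : wtr1 n c.st (c.tape c.pos) = some (q, .inr (some (w.getD (p + k) none)), true) ∨
      wtr2 n c.st (c.tape c.pos) = some (q, .inr (some (w.getD (p + k) none)), true)) :
    ∃ c' : (wm n).Cfg, (wm n).Step cv w.length c c' ∧ c'.st = q ∧
      c'.pos = c.pos + 1 ∧ TP n w p (k + 1) (p + k + 1) c' := by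
  have hns : c.pos ∉ c.seen := by
    rw [hT.2 c.pos (by omega) (by omega)]
    omega
  refine ⟨⟨q, c.pos + 1,
    Function.update c.tape c.pos (Sym.wrk (some (w.getD (p + k) none))), insert c.pos c.seen⟩,
    ⟨by omega, .inr (some (w.getD (p + k) none)), true, htr, fun h => by omega, rfl,
      fun _ => rfl, fun h => absurd ⟨by omega, by omega, hns⟩ h, rfl⟩, rfl, rfl, ?_⟩
  exact hT.first_mark hpos hf (fun _ => rfl) rfl

theorem reach_scan : ∀ f, f ≤ w.length → ∃ c : (wm n).Cfg,
    ReflTransGen ((wm n).Step cv w.length) ((wm n).init w) c ∧ c.st = .scan ∧ c.pos = f + 1 ∧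
      TP n w 0 0 f c := by
  intro f
  induction f with
  | zero =>
    intro _
    obtain ⟨f, hf, hT, hpos⟩ := (inv_init : Inv n w ((wm n).init w))
    have : f = 0 := by
      have h : (1 : ℕ) = f + 1 := hpos
      omega
    subst this
    exact ⟨(wm n).init w, ReflTransGen.refl, rfl, rfl, hT⟩
  | succ f ih =>
    intro hf
    obtain ⟨c, hr, hst, hpos, hT⟩ := ih (by omega)
    obtain ⟨c', hs, hst', hp', hT'⟩ := go_first hT (by omega) (by omega) hpos .scan true
      (Or.inl (by rw [hst, hT.fresh hpos (by omega)]; rfl))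
    exact ⟨c', hr.tail hs, hst', by simp [hp', hpos], hT'⟩

theorem reach_mark (p : ℕ) (hp : p + n ≤ w.length) : ∀ i, 1 ≤ i → i < n → ∃ c : (wm n).Cfg,
    ReflTransGen ((wm n).Step cv w.length) ((wm n).init w) c ∧ c.st = .mark i ∧
      c.pos = p + i + 1 ∧ TP n w p i (p + i) c := by
  intro i h1
  induction i, h1 using Nat.le_induction with
  | base =>
    intro hn
    obtain ⟨c, hr, hst, hpos, hT⟩ := reach_scan (n := n) (w := w) p (by omega)
    have hT' : TP n w p 0 (p + 0) c := hT.shift
    obtain ⟨c', hs, hst', hp', hT''⟩ := go_mark hT' (by omega) hpos (.mark 1)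
      (Or.inr (by
        rw [hst, hT.fresh hpos (by omega)]
        have : ¬ (1 = n) := by omega
        simp [wtr2, this]))
    exact ⟨c', hr.tail hs, hst', by simp [hp', hpos], hT''⟩
  | succ i hi ih =>
    intro hn
    obtain ⟨c, hr, hst, hpos, hT⟩ := ih (by omega)
    obtain ⟨c', hs, hst', hp', hT''⟩ := go_mark hT (by omega) hpos (.mark (i + 1))
      (Or.inl (by
        rw [hst, hT.fresh hpos (by omega)]
        have : ¬ (i + 1 = n) := by omega
        simp [wtr1, this]))
    exact ⟨c', hr.tail hs, hst', by simp [hp', hpos]; omega, hT''⟩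

theorem reach_mid0 (hn : 1 ≤ n) (p : ℕ) (hp : p + n ≤ w.length) : ∃ c : (wm n).Cfg,
    ReflTransGen ((wm n).Step cv w.length) ((wm n).init w) c ∧ c.st = .mid ∧
      c.pos = p + n + 1 ∧ TP n w p n (p + n) c := by
  by_cases h1 : n = 1
  · subst h1
    obtain ⟨c, hr, hst, hpos, hT⟩ := reach_scan (n := 1) (w := w) p (by omega)
    have hT' : TP 1 w p 0 (p + 0) c := hT.shift
    obtain ⟨c', hs, hst', hp', hT''⟩ := go_mark hT' (by omega) hpos .mid
      (Or.inr (by
        rw [hst, hT.fresh hpos (by omega)]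
        simp [wtr2]))
    exact ⟨c', hr.tail hs, hst', by simp [hp', hpos], hT''⟩
  · obtain ⟨c, hr, hst, hpos, hT⟩ := reach_mark p hp (n - 1) (by omega) (by omega)
    have e1 : n - 1 + 1 = n := by omega
    obtain ⟨c', hs, hst', hp', hT''⟩ := go_mark hT (by omega) hpos .mid
      (Or.inl (by
        rw [hst, hT.fresh hpos (by omega)]
        simp [wtr1, e1]))
    refine ⟨c', hr.tail hs, hst', by simp [hp', hpos]; omega, ?_⟩
    rw [e1] at hT''
    have e2 : p + (n - 1) + 1 = p + n := by omega
    rw [e2] at hT''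
    exact hT''

theorem reach_mid (hn : 1 ≤ n) (p : ℕ) : ∀ f, p + n ≤ f → f ≤ w.length → ∃ c : (wm n).Cfg,
    ReflTransGen ((wm n).Step cv w.length) ((wm n).init w) c ∧ c.st = .mid ∧
      c.pos = f + 1 ∧ TP n w p n f c := by
  intro f h1
  induction f, h1 using Nat.le_induction with
  | base => intro h; exact reach_mid0 hn p h
  | succ f hf ih =>
    intro h
    obtain ⟨c, hr, hst, hpos, hT⟩ := ih (by omega)
    obtain ⟨c', hs, hst', hp', hT'⟩ := go_first hT (by omega) hf hpos .mid true
      (Or.inl (by rw [hst, hT.fresh hpos (by omega)]; rfl))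
    exact ⟨c', hr.tail hs, hst', by simp [hp', hpos], hT'⟩

/-- walking left to the zone -/
theorem walk_go {p f e : ℕ} (hf : f ≤ w.length) :
    ∀ (k : ℕ) (c : (wm n).Cfg), TP n w p n f c → c.st = .go e → c.pos = p + n + k →
      c.pos ≤ f → ∃ c' : (wm n).Cfg, ReflTransGen ((wm n).Step cv w.length) c c' ∧
        TP n w p n f c' ∧ c'.st = .go e ∧ c'.pos = p + n := by
  intro k
  induction k with
  | zero => intro c hT hst hpos _; exact ⟨c, ReflTransGen.refl, hT, hst, hpos⟩
  | succ k ih =>
    intro c hT hst hpos hle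
    obtain ⟨c₁, hs, hst₁, hp₁, hT₁⟩ := go_inner hT hf (Or.inl hle) (.go e) false
      (fun h => by omega) (by rw [hst, hT.plain (by omega) hle]; rfl)
    simp at hp₁
    obtain ⟨c₂, hr, h⟩ := ih c₁ hT₁ hst₁ (by omega) (by omega)
    exact ⟨c₂, ReflTransGen.head hs hr, h⟩

/-- walking left inside the zone and reading -/
theorem walk_dn {p f e : ℕ} (hf : f ≤ w.length) (hpf : p + n ≤ f) (h1e : 1 ≤ e) (hen : e ≤ n) :
    ∀ (i : ℕ) (c : (wm n).Cfg), TP n w p n f c → c.st = .dn i → i < e →
      c.pos = p + (n - e) + 1 + i →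
      ∃ c' : (wm n).Cfg, ReflTransGen ((wm n).Step cv w.length) c c' ∧
        TP n w p n f c' ∧ c'.st = .up (w.getD (p + (n - e)) none) 1 ∧
        c'.pos = p + (n - e) + 1 + 1 := by
  intro i
  induction i with
  | zero =>
    intro c hT hst _ hpos
    obtain ⟨c₁, hs, hst₁, hp₁, hT₁⟩ := go_inner hT hf (Or.inl (by omega))
      (.up (w.getD (p + (n - e)) none) 1) true (fun _ => rfl) (by
        rw [hst, hT.marked (by omega) (by omega) (by omega)]
        have : c.pos - 1 = p + (n - e) := by omega
        simp [wtr1, Prog.wb, this])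
    simp at hp₁
    exact ⟨c₁, ReflTransGen.single hs, hT₁, hst₁, by omega⟩
  | succ i ih =>
    intro c hT hst hie hpos
    obtain ⟨c₁, hs, hst₁, hp₁, hT₁⟩ := go_inner hT hf (Or.inl (by omega))
      (.dn i) false (fun h => by omega) (by
        rw [hst, hT.marked (by omega) (by omega) (by omega)]
        simp [wtr1, Prog.wb])
    simp at hp₁
    obtain ⟨c₂, hr, h⟩ := ih c₁ hT₁ hst₁ (by omega) (by omega)
    exact ⟨c₂, ReflTransGen.head hs hr, h⟩

/-- walking right inside the zone and leaving it -/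
theorem walk_up {p f e : ℕ} {a : Option Bool} (hf : f ≤ w.length) (hpf : p + n < f)
    (hen : e ≤ n) :
    ∀ (k i : ℕ) (c : (wm n).Cfg), i + k = e → TP n w p n f c → c.st = .up a i →
      c.pos = p + (n - e) + 1 + i →
      ∃ c' : (wm n).Cfg, ReflTransGen ((wm n).Step cv w.length) c c' ∧
        TP n w p n f c' ∧ c'.st = .rt a e ∧ c'.pos = p + n + 2 := by
  intro k
  induction k with
  | zero =>
    intro i c hik hT hst hpos
    have : i = e := by omega
    subst this
    obtain ⟨c₁, hs, hst₁, hp₁, hT₁⟩ := go_inner hT hf (Or.inl (by omega))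
      (.rt a i) true (fun _ => rfl) (by
        rw [hst, hT.plain (by omega) (by omega)]
        simp [wtr1, Prog.wb])
    simp at hp₁
    exact ⟨c₁, ReflTransGen.single hs, hT₁, hst₁, by omega⟩
  | succ k ih =>
    intro i c hik hT hst hpos
    obtain ⟨c₁, hs, hst₁, hp₁, hT₁⟩ := go_inner hT hf (Or.inl (by omega))
      (.up a (i + 1)) true (fun _ => rfl) (by
        rw [hst, hT.marked (by omega) (by omega) (by omega)]
        have : i < n := by omega
        simp [wtr1, Prog.wb, this])
    simp at hp₁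
    obtain ⟨c₂, hr, h⟩ := ih (i + 1) c₁ (by omega) hT₁ hst₁ (by omega)
    exact ⟨c₂, ReflTransGen.head hs hr, h⟩

/-- walking right to the frontier -/
theorem walk_rt {p f e : ℕ} {a : Option Bool} (hf : f ≤ w.length) :
    ∀ (k : ℕ) (c : (wm n).Cfg), c.pos + k = f + 1 → TP n w p n f c → c.st = .rt a e →
      p + n < c.pos →
      ∃ c' : (wm n).Cfg, ReflTransGen ((wm n).Step cv w.length) c c' ∧
        TP n w p n f c' ∧ c'.st = .rt a e ∧ c'.pos = f + 1 := by
  intro k
  induction k with
  | zero => intro c hpos hT hst _; exact ⟨c, ReflTransGen.refl, hT, hst, hpos⟩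
  | succ k ih =>
    intro c hpos hT hst hlt
    obtain ⟨c₁, hs, hst₁, hp₁, hT₁⟩ := go_inner hT hf (Or.inl (by omega))
      (.rt a e) true (fun _ => rfl) (by
        rw [hst, hT.plain (by omega) (by omega)]
        simp [wtr1, Prog.wb])
    simp at hp₁
    obtain ⟨c₂, hr, h⟩ := ih c₁ (by omega) hT₁ hst₁ (by omega)
    exact ⟨c₂, ReflTransGen.head hs hr, h⟩

/-- one comparison, up to the frontier -/
theorem round {p g e : ℕ} (hpg : p + n < g) (hgn : g + n = w.length) (h1e : 1 ≤ e)
    (hen : e ≤ n) (c : (wm n).Cfg) (hT : TP n w p n (g + (n - e)) c) (hst : c.st = .go e)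
    (hp1 : p + n ≤ c.pos) (hp2 : c.pos ≤ g + (n - e)) :
    ∃ c' : (wm n).Cfg, ReflTransGen ((wm n).Step cv w.length) c c' ∧
      TP n w p n (g + (n - e)) c' ∧ c'.st = .rt (w.getD (p + (n - e)) none) e ∧
      c'.pos = g + (n - e) + 1 := by
  have hf : g + (n - e) ≤ w.length := by omega
  obtain ⟨c₁, hr₁, hT₁, hst₁, hp₁⟩ := walk_go hf (c.pos - (p + n)) c hT hst (by omega) hp2
  obtain ⟨c₂, hr₂, hT₂, hst₂, hp₂⟩ : ∃ c' : (wm n).Cfg,
      ReflTransGen ((wm n).Step cv w.length) c₁ c' ∧ TP n w p n (g + (n - e)) c' ∧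
      c'.st = .up (w.getD (p + (n - e)) none) 1 ∧ c'.pos = p + (n - e) + 1 + 1 := by
    by_cases h : e = 1
    · subst h
      obtain ⟨c₂, hs, hst₂, hp₂, hT₂⟩ := go_inner hT₁ hf (Or.inl (by omega))
        (.up (w.getD (p + (n - 1)) none) 1) true (fun _ => rfl) (by
          rw [hst₁, hT₁.marked (by omega) (by omega) (by omega)]
          have : c₁.pos - 1 = p + (n - 1) := by omega
          simp [wtr1, Prog.wb, this])
      simp at hp₂
      exact ⟨c₂, ReflTransGen.single hs, hT₂, hst₂, by omega⟩
    · obtain ⟨c₂, hs, hst₂, hp₂, hT₂⟩ := go_inner hT₁ hf (Or.inl (by omega))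
        (.dn (e - 2)) false (fun h => by omega) (by
          rw [hst₁, hT₁.marked (by omega) (by omega) (by omega)]
          have : ¬ (e ≤ 1) := by omega
          simp [wtr1, Prog.wb, this])
      simp at hp₂
      obtain ⟨c₃, hr₃, h⟩ := walk_dn hf (by omega) h1e hen (e - 2) c₂ hT₂ hst₂ (by omega)
        (by omega)
      exact ⟨c₃, ReflTransGen.head hs hr₃, h⟩
  obtain ⟨c₃, hr₃, hT₃, hst₃, hp₃⟩ := walk_up hf (by omega) hen (e - 1) 1 c₂ (by omega) hT₂
    hst₂ (by omega)
  obtain ⟨c₄, hr₄, hT₄, hst₄, hp₄⟩ := walk_rt hf (g + (n - e) + 1 - c₃.pos) c₃ (by omega) hT₃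
    hst₃ (by omega)
  exact ⟨c₄, ((hr₁.trans hr₂).trans hr₃).trans hr₄, hT₄, hst₄, hp₄⟩

/-- all comparisons -/
theorem loop {p g : ℕ} (hpg : p + n < g) (hgn : g + n = w.length)
    (hz : ∀ i < n, w.getD (p + i) none = w.getD (g + i) none) :
    ∀ (e : ℕ), e + 1 ≤ n → ∀ (c : (wm n).Cfg), TP n w p n (g + (n - (e + 1))) c →
      c.st = .go (e + 1) → p + n ≤ c.pos → c.pos ≤ g + (n - (e + 1)) →
      ∃ c' : (wm n).Cfg, ReflTransGen ((wm n).Step cv w.length) c c' ∧
        TP n w p n w.length c' ∧ c'.st = .fin ∧ c'.pos = w.length + 1 := by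
  intro e
  induction e with
  | zero =>
    intro hn c hT hst hp1 hp2
    obtain ⟨c₁, hr₁, hT₁, hst₁, hp₁⟩ := round hpg hgn le_rfl hn c hT hst hp1 hp2
    obtain ⟨c₂, hs, hst₂, hp₂, hT₂⟩ := go_first hT₁ (by omega) (by omega) hp₁ .fin true
      (Or.inl (by
        rw [hst₁, hT₁.fresh hp₁ (by omega), ← hz (n - (0 + 1)) (by omega)]
        simp [wtr1]))
    simp at hp₂
    refine ⟨c₂, hr₁.tail hs, ?_, hst₂, by omega⟩
    have : g + (n - (0 + 1)) + 1 = w.length := by omega
    rw [this] at hT₂
    exact hT₂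
  | succ e ih =>
    intro hn c hT hst hp1 hp2
    obtain ⟨c₁, hr₁, hT₁, hst₁, hp₁⟩ := round hpg hgn (by omega) hn c hT hst hp1 hp2
    obtain ⟨c₂, hs, hst₂, hp₂, hT₂⟩ := go_first hT₁ (by omega) (by omega) hp₁ (.go (e + 1)) false
      (Or.inl (by
        rw [hst₁, hT₁.fresh hp₁ (by omega), ← hz (n - (e + 1 + 1)) (by omega)]
        simp [wtr1]))
    simp at hp₂
    have : g + (n - (e + 1 + 1)) + 1 = g + (n - (e + 1)) := by omega
    rw [this] at hT₂
    obtain ⟨c₃, hr₃, h⟩ := ih (by omega) c₂ hT₂ hst₂ (by omega) (by omega)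
    exact ⟨c₃, (hr₁.tail hs).trans hr₃, h⟩

theorem wm_complete (hn : 1 ≤ n) (h : w ∈ wit n) : w ∈ (wm n).lang cv := by
  obtain ⟨p, g, hpg, hgn, hz⟩ := h
  obtain ⟨c, hr, hst, hpos, hT⟩ := reach_mid (w := w) (cv := cv) hn p (g - 1) (by omega)
    (by omega)
  obtain ⟨c₁, hs, hst₁, hp₁, hT₁⟩ := go_first (cv := cv) hT (by omega) (by omega) hpos (.go n) false
    (Or.inr (by rw [hst, hT.fresh hpos (by omega)]; rfl))
  simp at hp₁
  obtain ⟨e, rfl⟩ : ∃ e, n = e + 1 := ⟨n - 1, by omega⟩
  have e1 : g - 1 + 1 = g + (e + 1 - (e + 1)) := by omega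
  rw [e1] at hT₁
  obtain ⟨c₂, hr₂, hT₂, hst₂, hp₂⟩ := loop hpg hgn hz e le_rfl c₁ hT₁ hst₁ (by omega) (by omega)
  obtain ⟨c₃, hs₃, hst₃, hp₃, _⟩ := go_inner hT₂ le_rfl (Or.inr hp₂) .fin true
    (fun _ => rfl) (by rw [hst₂, hT₂.atEnd hp₂ le_rfl]; rfl)
  simp at hp₃
  exact ⟨c₃, ((hr.tail hs).trans hr₂).tail hs₃, by omega, hst₃⟩

theorem wm_lang (hn : 1 ≤ n) : (wm n).lang cv = wit n := by
  ext w
  exact ⟨wm_sound hn, wm_complete hn⟩

end Pool.Agent.P0036f5v2
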