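import Pool.Agent.Lib.P0036f5v2.Upper
import Pool.Agent.Lib.P0036f5v2.Witness

/-!
# The exponential lower bound
-/

set_option autoImplicit false

namespace Pool.Agent.P0036f5v2

open Relation Classical

namespace Mach

variable {A : Type} (M : Mach A) (cv : Bool)

/-- a functional table -/
def Fun (T : Set (M.Q × M.Q)) : Prop := ∀ p q q', (p, q) ∈ T → (p, q') ∈ T → q = q'

theorem fun_T0 (hM : M.Det) : M.Fun (M.T0 cv) := by
  rintro p q q' ⟨x, hx, _⟩ ⟨x', hx', _⟩
  have := hM _ _ hx hx'
  exact congrArg (fun t => t.1) this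

theorem fun_upd (hM : M.Det) {T : Set (M.Q × M.Q)} (hT : M.Fun T) (g : Sym A M.W) :
    M.Fun (M.upd cv T g) := by
  rintro p q q' ⟨r, hr, x, hx, hok⟩ ⟨r', hr', x', hx', hok'⟩
  simp only at hr hr' hx hx'
  have hstop : ∀ (a b : M.Q), M.RM cv g a b → ∀ c, ¬ M.Exc cv T g a c := by
    rintro a b ⟨x, hx, _⟩ c ⟨r, ⟨y, hy, _⟩, _⟩
    have := hM _ _ hx hy
    have h2 : true = false := congrArg (fun t => t.2.2) this
    simp at h2
  have hu : Relator.RightUnique (M.Exc cv T g) := by
    rintro a b c ⟨r, ⟨x, hx, _⟩, h⟩ ⟨r', ⟨x', hx', _⟩, h'⟩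
    have h1 : r = r' := congrArg (fun t => t.1) (hM _ _ hx hx')
    subst h1
    exact hT _ _ _ h h'
  have hrr : r = r' := by
    rcases ReflTransGen.total_of_right_unique hu hr hr' with h | h
    · rcases h.cases_head with h | ⟨c, hc, _⟩
      · exact h
      · exact absurd hc (hstop _ _ ⟨x, hx, hok⟩ c)
    · rcases h.cases_head with h | ⟨c, hc, _⟩
      · exact h.symm
      · exact absurd hc (hstop _ _ ⟨x', hx', hok'⟩ c)
  subst hrr
  exact congrArg (fun t => t.1) (hM _ _ hx hx')

/-- The table automaton of a deterministic machine is deterministic. -/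
theorem eval_det (hM : M.Det) (u : List A) :
    ((M.toNFA cv).evalFrom (M.toNFA cv).start u).Subsingleton ∧
      ∀ s ∈ (M.toNFA cv).evalFrom (M.toNFA cv).start u, M.Fun s.1 := by
  induction u using List.reverseRecOn with
  | nil =>
    refine ⟨?_, ?_⟩
    · simp only [NFA.evalFrom_nil]
      exact Set.subsingleton_singleton
    · intro s hs
      simp only [NFA.evalFrom_nil] at hs
      have : s = (M.T0 cv, M.qI) := hs
      rw [this]
      exact M.fun_T0 cv hM
  | append_singleton u a ih =>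
    obtain ⟨ih1, ih2⟩ := ih
    rw [NFA.evalFrom_append, NFA.evalFrom_singleton]
    refine ⟨?_, ?_⟩
    · intro s hs s' hs'
      rw [NFA.mem_stepSet] at hs hs'
      obtain ⟨t, ht, q, x, d, h1, h2, h3⟩ := hs
      obtain ⟨t', ht', q', x', d', h1', h2', h3'⟩ := hs'
      have : t = t' := ih1 ht ht'
      subst this
      have hx := hM _ _ h1 h1'
      have e1 : q = q' := congrArg (fun t => t.1) hx
      have e2 : x = x' := congrArg (fun t => t.2.1) hx
      have e3 : d = d' := congrArg (fun t => t.2.2) hx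
      subst e1 e2 e3
      have e4 : s.1 = s'.1 := by rw [h2, h2']
      have hf : M.Fun s.1 := by rw [h2]; exact M.fun_upd cv hM (ih2 t ht) _
      refine Prod.ext e4 ?_
      rcases h3 with ⟨hd, h3⟩ | ⟨hd, p, hp, hp2⟩
      · rcases h3' with ⟨_, h3'⟩ | ⟨hd', _⟩
        · rw [h3, h3']
        · rw [hd] at hd'; simp at hd'
      · rcases h3' with ⟨hd', _⟩ | ⟨_, p', hp', hp2'⟩
        · rw [hd] at hd'; simp at hd'
        · have : p = p' := ih2 t ht _ _ _ hp hp'
          subst this
          rw [← e4] at hp2'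
          exact hf _ _ _ hp2 hp2'
    · intro s hs
      rw [NFA.mem_stepSet] at hs
      obtain ⟨t, ht, q, x, d, h1, h2, h3⟩ := hs
      rw [h2]
      exact M.fun_upd cv hM (ih2 t ht) _

/-- A deterministic machine with `k` states has at most `k 2 ^ (k ^ 2) + 1` residuals. -/
theorem card_le_of_residuals (hM : M.Det) [Finite M.Q] {ι : Type} [Finite ι] (f : ι → List A)
    (hf : ∀ i j, i ≠ j → ∃ v, ¬ (f i ++ v ∈ M.lang cv ↔ f j ++ v ∈ M.lang cv)) :
    Nat.card ι ≤ 2 ^ (Nat.card M.Q * Nat.card M.Q) * Nat.card M.Q + 1 := by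
  have hsame : ∀ i j, (M.toNFA cv).evalFrom (M.toNFA cv).start (f i) =
      (M.toNFA cv).evalFrom (M.toNFA cv).start (f j) → i = j := by
    intro i j h
    by_contra hij
    obtain ⟨v, hv⟩ := hf i j hij
    apply hv
    rw [← M.toNFA_accepts cv, NFA.mem_accepts, NFA.mem_accepts, NFA.evalFrom_append,
      NFA.evalFrom_append, h]
  let g : ι → Option (Set (M.Q × M.Q) × M.Q) := fun i =>
    if h : ((M.toNFA cv).evalFrom (M.toNFA cv).start (f i)).Nonempty then some h.choose else none
  have hg : Function.Injective g := by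
    intro i j hij
    apply hsame
    by_cases h1 : ((M.toNFA cv).evalFrom (M.toNFA cv).start (f i)).Nonempty
    · by_cases h2 : ((M.toNFA cv).evalFrom (M.toNFA cv).start (f j)).Nonempty
      · simp only [g, dif_pos h1, dif_pos h2, Option.some.injEq] at hij
        have a1 := h1.choose_spec
        have a2 := h2.choose_spec
        rw [← hij] at a2
        have s1 := (M.eval_det cv hM (f i)).1
        have s2 := (M.eval_det cv hM (f j)).1
        ext s
        exact ⟨fun h => by rw [s1 h a1]; exact a2, fun h => by rw [s2 h a2]; exact a1⟩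
      · simp only [g, dif_pos h1, dif_neg h2] at hij
        simp at hij
    · by_cases h2 : ((M.toNFA cv).evalFrom (M.toNFA cv).start (f j)).Nonempty
      · simp only [g, dif_neg h1, dif_pos h2] at hij
        simp at hij
      · rw [Set.not_nonempty_iff_eq_empty] at h1 h2
        rw [h1, h2]
  have hc := Nat.card_le_card_of_injective g hg
  have := Fintype.ofFinite (M.Q × M.Q)
  rw [Finite.card_option, Nat.card_prod, Nat.card_eq_fintype_card (α := Set (M.Q × M.Q)),
    Fintype.card_set, ← Nat.card_eq_fintype_card (α := M.Q × M.Q), Nat.card_prod] at hc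
  exact hc

end Mach

/-! ### The witness language has many residuals -/

/-- the letters of the word coding the set `X` -/
noncomputable def cl (n : ℕ) (X : Finset ℕ) (j : ℕ) : Option Bool :=
  if j % (n + 1) = 0 then none
  else if j / (n + 1) ∈ X then some ((j / (n + 1)).testBit (j % (n + 1) - 1)) else none

/-- the word coding the set `X` -/
noncomputable def uw (n : ℕ) (X : Finset ℕ) : List (Option Bool) :=
  (List.range (2 ^ n * (n + 1) + 1)).map (cl n X)

/-- the word coding the number `t` -/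
def xw (n t : ℕ) : List (Option Bool) := (List.range n).map fun i => some (t.testBit i)

theorem length_uw (n : ℕ) (X : Finset ℕ) : (uw n X).length = 2 ^ n * (n + 1) + 1 := by
  simp [uw]

theorem length_xw (n t : ℕ) : (xw n t).length = n := by simp [xw]

theorem getD_left (n : ℕ) (X : Finset ℕ) (t j : ℕ) (hj : j < 2 ^ n * (n + 1) + 1) :
    (uw n X ++ xw n t).getD j none = cl n X j := by
  rw [List.getD_eq_getElem?_getD, List.getElem?_append_left (by rw [length_uw]; exact hj)]
  simp [uw, hj]

theorem getD_right (n : ℕ) (X : Finset ℕ) (t i : ℕ) (hi : i < n) :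
    (uw n X ++ xw n t).getD (2 ^ n * (n + 1) + 1 + i) none = some (t.testBit i) := by
  rw [List.getD_eq_getElem?_getD, List.getElem?_append_right (by rw [length_uw]; omega),
    length_uw, Nat.add_sub_cancel_left]
  simp [xw, hi]

theorem cl_block (n : ℕ) (X : Finset ℕ) (q i : ℕ) (hi : i < n) :
    cl n X (q * (n + 1) + 1 + i) = if q ∈ X then some (q.testBit i) else none := by
  have h1 : (q * (n + 1) + 1 + i) % (n + 1) = 1 + i := by
    rw [Nat.add_assoc, Nat.mul_comm, Nat.mul_add_mod, Nat.mod_eq_of_lt (by omega)]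
  have h2 : (q * (n + 1) + 1 + i) / (n + 1) = q := by
    rw [Nat.add_assoc, Nat.add_comm, Nat.add_mul_div_right _ _ (by omega),
      Nat.div_eq_of_lt (by omega), Nat.zero_add]
  unfold cl
  rw [h1, h2, if_neg (by omega)]
  have : 1 + i - 1 = i := by omega
  rw [this]

theorem mem_wit_iff (n : ℕ) (hn : 1 ≤ n) (X : Finset ℕ) (t : ℕ) (ht : t < 2 ^ n) :
    uw n X ++ xw n t ∈ wit n ↔ t ∈ X := by
  have hlen : (uw n X ++ xw n t).length = 2 ^ n * (n + 1) + 1 + n := by
    rw [List.length_append, length_uw, length_xw]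
  constructor
  · rintro ⟨p, g, hpg, hg, hz⟩
    rw [hlen] at hg
    have hg' : g = 2 ^ n * (n + 1) + 1 := by omega
    subst hg'
    have hz' : ∀ i < n, cl n X (p + i) = some (t.testBit i) := by
      intro i hi
      rw [← getD_left n X t (p + i) (by omega), hz i hi, getD_right n X t i hi]
    have hmod : ∀ i < n, (p + i) % (n + 1) ≠ 0 := by
      intro i hi h0
      have := hz' i hi
      unfold cl at this
      rw [if_pos h0] at this
      simp at this
    have hs : p % (n + 1) = 1 := by
      have h0 := hmod 0 (by omega)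
      rw [Nat.add_zero] at h0
      have hlt := Nat.mod_lt p (show 0 < n + 1 by omega)
      by_contra hne
      have h2 := hmod (n + 1 - p % (n + 1)) (by omega)
      apply h2
      have h3 := Nat.div_add_mod p (n + 1)
      have h4 : p + (n + 1 - p % (n + 1)) = (n + 1) * (p / (n + 1) + 1) := by
        rw [Nat.mul_add, Nat.mul_one]
        omega
      rw [h4, Nat.mul_mod_right]
    have hp : p = p / (n + 1) * (n + 1) + 1 := by
      have h3 := Nat.div_add_mod p (n + 1)
      rw [hs, Nat.mul_comm] at h3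
      exact h3.symm
    set q := p / (n + 1) with hq
    have hb : ∀ i < n, (if q ∈ X then some (q.testBit i) else none) = some (t.testBit i) := by
      intro i hi
      rw [← cl_block n X q i hi, ← hp]
      exact hz' i hi
    have hqX : q ∈ X := by
      by_contra h
      have := hb 0 (by omega)
      rw [if_neg h] at this
      simp at this
    have hq2 : q < 2 ^ n := by
      by_contra h
      push Not at h
      have : 2 ^ n * (n + 1) ≤ q * (n + 1) := Nat.mul_le_mul_right _ h
      omega
    have : q = t := by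
      apply Nat.eq_of_testBit_eq
      intro i
      rcases Nat.lt_or_ge i n with hi | hi
      · have := hb i hi
        rw [if_pos hqX] at this
        exact Option.some.inj this
      · have h5 : 2 ^ n ≤ 2 ^ i := Nat.pow_le_pow_right (by norm_num) hi
        rw [Nat.testBit_lt_two_pow (by omega), Nat.testBit_lt_two_pow (by omega)]
    rw [← this]
    exact hqX
  · intro htX
    have h1 : (t + 1) * (n + 1) ≤ 2 ^ n * (n + 1) := Nat.mul_le_mul_right _ ht
    have h2 : (t + 1) * (n + 1) = t * (n + 1) + n + 1 := by ring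
    refine ⟨t * (n + 1) + 1, 2 ^ n * (n + 1) + 1, by omega, by rw [hlen], fun i hi => ?_⟩
    rw [getD_left n X t _ (by omega), getD_right n X t i hi, cl_block n X t i hi, if_pos htX]

/-- Any deterministic 1-limited automaton for `wit n` has size at least `2 ^ (n / 2)`. -/
theorem det_lower (n : ℕ) (hn : 1 ≤ n) (D : LA (Option Bool)) (hD : D.toMach.Det) (cv : Bool)
    (hL : D.toMach.lang cv = wit n) : 2 ^ n ≤ D.toMach.size ^ 2 := by
  have fQ := D.finQ
  have fW := D.finW
  have fι : Finite {X : Finset ℕ // X ∈ (Finset.range (2 ^ n)).powerset} :=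
    (Finset.finite_toSet _).to_subtype
  have h := D.toMach.card_le_of_residuals cv hD
    (ι := {X : Finset ℕ // X ∈ (Finset.range (2 ^ n)).powerset}) (fun X => uw n X.1) (by
      rintro ⟨X, hX⟩ ⟨Y, hY⟩ hne
      have hne' : X ≠ Y := fun h => hne (Subtype.ext h)
      rw [Finset.mem_powerset] at hX hY
      obtain ⟨t, ht⟩ : ∃ t, ¬ (t ∈ X ↔ t ∈ Y) := by
        by_contra hcon
        push Not at hcon
        exact hne' (Finset.ext hcon)
      have htlt : t < 2 ^ n := by
        by_contra hge
        apply ht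
        exact ⟨fun h => absurd (Finset.mem_range.1 (hX h)) hge,
          fun h => absurd (Finset.mem_range.1 (hY h)) hge⟩
      refine ⟨xw n t, ?_⟩
      rw [hL, mem_wit_iff n hn X t htlt, mem_wit_iff n hn Y t htlt]
      exact ht)
  have hcard : Nat.card {X : Finset ℕ // X ∈ (Finset.range (2 ^ n)).powerset} = 2 ^ 2 ^ n := by
    rw [Nat.card_eq_fintype_card, Fintype.card_coe, Finset.card_powerset, Finset.card_range]
  rw [hcard] at h
  set k := Nat.card D.Q with hk
  have hsz : k + 1 ≤ D.toMach.size := by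
    unfold Mach.size
    omega
  have h1 : 2 ^ (k * k) * k + 1 ≤ 2 ^ (k * k + k + 1) := by
    have h2 : k ≤ 2 ^ k := Nat.lt_two_pow_self.le
    have h3 : 2 ^ (k * k + k + 1) = 2 ^ (k * k) * 2 ^ k + 2 ^ (k * k) * 2 ^ k := by ring
    have h4 : 2 ^ (k * k) * k ≤ 2 ^ (k * k) * 2 ^ k := Nat.mul_le_mul_left _ h2
    have h5 : 1 ≤ 2 ^ (k * k) * 2 ^ k := Nat.mul_pos (by positivity) (by positivity)
    omega
  have h6 : 2 ^ n ≤ k * k + k + 1 := (Nat.pow_le_pow_iff_right (by norm_num)).1 (h.trans h1)
  calc 2 ^ n ≤ k * k + k + 1 := h6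
    _ ≤ (k + 1) ^ 2 := by nlinarith
    _ ≤ D.toMach.size ^ 2 := Nat.pow_le_pow_left hsz 2

/-! ### The size of the witness machine -/

/-- the states that can occur -/
def wstates (n : ℕ) : Set LS :=
  (({.scan, .mid, .fin} ∪ LS.mark '' Set.Iio n) ∪ (LS.go '' Set.Iic n ∪ LS.dn '' Set.Iic n)) ∪
    ((fun p : Option Bool × ℕ => LS.up p.1 p.2) '' (Set.univ ×ˢ Set.Iic n) ∪
      (fun p : Option Bool × ℕ => LS.rt p.1 p.2) '' (Set.univ ×ˢ Set.Iic n))

theorem mem_ws_scan (n : ℕ) : LS.scan ∈ wstates n := by simp [wstates]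
theorem mem_ws_mid (n : ℕ) : LS.mid ∈ wstates n := by simp [wstates]
theorem mem_ws_fin (n : ℕ) : LS.fin ∈ wstates n := by simp [wstates]
theorem mem_ws_mark (n i : ℕ) : LS.mark i ∈ wstates n ↔ i < n := by simp [wstates]
theorem mem_ws_go (n i : ℕ) : LS.go i ∈ wstates n ↔ i ≤ n := by simp [wstates]
theorem mem_ws_dn (n i : ℕ) : LS.dn i ∈ wstates n ↔ i ≤ n := by simp [wstates]
theorem mem_ws_up (n i : ℕ) (a : Option Bool) : LS.up a i ∈ wstates n ↔ i ≤ n := by
  simp [wstates]
theorem mem_ws_rt (n i : ℕ) (a : Option Bool) : LS.rt a i ∈ wstates n ↔ i ≤ n := by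
  simp [wstates]

theorem wstates_finite (n : ℕ) : (wstates n).Finite := by
  unfold wstates
  refine Set.Finite.union (Set.Finite.union (Set.Finite.union (Set.toFinite _) ?_)
    (Set.Finite.union ?_ ?_)) (Set.Finite.union ?_ ?_)
  · exact (Set.finite_Iio n).image _
  · exact (Set.finite_Iic n).image _
  · exact (Set.finite_Iic n).image _
  · exact (Set.finite_univ.prod (Set.finite_Iic n)).image _
  · exact (Set.finite_univ.prod (Set.finite_Iic n)).image _

theorem wstates_ncard (n : ℕ) : (wstates n).ncard ≤ 9 * n + 11 := by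
  have c1 : (Set.Iio n).ncard = n := by simp [Set.ncard_eq_toFinset_card']
  have c2 : (Set.Iic n).ncard = n + 1 := by simp [Set.ncard_eq_toFinset_card']
  have c3 : ((Set.univ : Set (Option Bool)) ×ˢ Set.Iic n).ncard = 3 * (n + 1) := by
    rw [Set.ncard_prod, c2]
    congr 1
    simp [Set.ncard_univ]
  have i1 : (LS.mark '' Set.Iio n).ncard ≤ n :=
    (Set.ncard_image_le (Set.finite_Iio n)).trans c1.le
  have i2 : (LS.go '' Set.Iic n).ncard ≤ n + 1 :=
    (Set.ncard_image_le (Set.finite_Iic n)).trans c2.le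
  have i3 : (LS.dn '' Set.Iic n).ncard ≤ n + 1 :=
    (Set.ncard_image_le (Set.finite_Iic n)).trans c2.le
  have i4 : ((fun p : Option Bool × ℕ => LS.up p.1 p.2) '' (Set.univ ×ˢ Set.Iic n)).ncard ≤
      3 * (n + 1) :=
    (Set.ncard_image_le (Set.finite_univ.prod (Set.finite_Iic n))).trans c3.le
  have i5 : ((fun p : Option Bool × ℕ => LS.rt p.1 p.2) '' (Set.univ ×ˢ Set.Iic n)).ncard ≤
      3 * (n + 1) :=
    (Set.ncard_image_le (Set.finite_univ.prod (Set.finite_Iic n))).trans c3.le
  have i6 : ({.scan, .mid, .fin} : Set LS).ncard ≤ 3 := by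
    refine (Set.ncard_insert_le _ _).trans ?_
    have := Set.ncard_insert_le LS.mid ({.fin} : Set LS)
    simp at this ⊢
  unfold wstates
  refine (Set.ncard_union_le _ _).trans ?_
  have j1 := Set.ncard_union_le (({.scan, .mid, .fin} : Set LS) ∪ LS.mark '' Set.Iio n)
    (LS.go '' Set.Iic n ∪ LS.dn '' Set.Iic n)
  have j2 := Set.ncard_union_le ({.scan, .mid, .fin} : Set LS) (LS.mark '' Set.Iio n)
  have j3 := Set.ncard_union_le (LS.go '' Set.Iic n) (LS.dn '' Set.Iic n)
  have j4 := Set.ncard_union_le ((fun p : Option Bool × ℕ => LS.up p.1 p.2) ''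
    (Set.univ ×ˢ Set.Iic n)) ((fun p : Option Bool × ℕ => LS.rt p.1 p.2) ''
    (Set.univ ×ˢ Set.Iic n))
  omega

theorem wstates_closed (n : ℕ) (hn : 1 ≤ n) : ∀ q ∈ wstates n, ∀ s,
    ∀ x ∈ (wm n).δ q s, x.1 ∈ wstates n := by
  intro q hq s x hx
  have hx' : wtr1 n q s = some x ∨ wtr2 n q s = some x := hx
  clear hx
  rcases q with _ | i | _ | e | i | ⟨a, i⟩ | ⟨a, e⟩ | _ <;> rcases s with b | (_ | b) | _ | _ <;>
    simp only [wtr1, wtr2, mem_ws_mark, mem_ws_go, mem_ws_dn, mem_ws_up, mem_ws_rt, reduceCtorEq,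
      or_false, or_self, Option.some.injEq] at hx' hq <;>
    (try split_ifs at hx') <;>
    (try simp only [Option.some.injEq] at hx') <;>
    (try (rcases hx' with hx' | hx')) <;>
    (try subst hx') <;>
    (try simp only [mem_ws_scan, mem_ws_mid, mem_ws_fin, mem_ws_mark, mem_ws_go, mem_ws_dn,
      mem_ws_up, mem_ws_rt]) <;>
    (try omega)

/-- A machine of linear size for the witness language. -/
theorem exists_small (n : ℕ) (hn : 1 ≤ n) :
    ∃ M : LA (Option Bool), (∀ cv, M.toMach.lang cv = wit n) ∧ M.toMach.size ≤ 2000 * n := by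
  have hI : (wm n).qI ∈ wstates n := mem_ws_scan n
  let M' : Mach (Option Bool) := (wm n).restrict (wstates n) hI
  have fQ : Finite M'.Q := (wstates_finite n).to_subtype
  have fW : Finite M'.W := inferInstanceAs (Finite (Option (Option Bool)))
  refine ⟨⟨M', fQ, fW⟩, ?_, ?_⟩
  · intro cv
    show M'.lang cv = _
    rw [← wm_lang (cv := cv) hn]
    exact Mach.restrict_lang _ cv _ hI (wstates_closed n hn)
  · show M'.size ≤ _
    have hA : Nat.card (Option Bool) = 3 := by simp
    have hS : Nat.card (Sym (Option Bool) M'.W) = 9 := by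
      have : Nat.card (Sym (Option Bool) (Option (Option Bool))) = 9 := by
        rw [card_sym]; simp
      exact this
    have hQ : Nat.card M'.Q = (wstates n).ncard := rfl
    have hF : M'.F.ncard ≤ Nat.card M'.Q := Set.ncard_le_card M'.F
    have fS : Finite (Sym (Option Bool) M'.W) :=
      inferInstanceAs (Finite (Sym (Option Bool) (Option (Option Bool))))
    have hT : Nat.card {t : (M'.Q × Sym (Option Bool) M'.W) ×
        (M'.Q × (Option Bool ⊕ M'.W) × Bool) // t.2 ∈ M'.δ t.1.1 t.1.2} ≤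
        Nat.card ((M'.Q × Sym (Option Bool) M'.W) × Bool) := by
      refine Nat.card_le_card_of_injective
        (fun t => (t.1.1, decide (wtr1 n t.1.1.1.1 t.1.1.2 = some (t.1.2.1.1, t.1.2.2)))) ?_
      rintro ⟨⟨⟨q, s⟩, ⟨r, y⟩⟩, h⟩ ⟨⟨⟨q', s'⟩, ⟨r', y'⟩⟩, h'⟩ heq
      simp only [Prod.mk.injEq] at heq
      obtain ⟨⟨rfl, rfl⟩, hd⟩ := heq
      have h1 : wtr1 n q.1 s = some (r.1, y) ∨ wtr2 n q.1 s = some (r.1, y) := h
      have h2 : wtr1 n q.1 s = some (r'.1, y') ∨ wtr2 n q.1 s = some (r'.1, y') := h'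
      have h3 : (wtr1 n q.1 s = some (r.1, y)) ↔ (wtr1 n q.1 s = some (r'.1, y')) := by
        simpa using hd
      have h4 : (r.1, y) = (r'.1, y') := by
        by_cases hc : wtr1 n q.1 s = some (r.1, y)
        · have := h3.1 hc
          rw [hc] at this
          exact Option.some.inj this
        · have hc' : ¬ wtr1 n q.1 s = some (r'.1, y') := fun h => hc (h3.2 h)
          have a1 := h1.resolve_left hc
          have a2 := h2.resolve_left hc'
          rw [a1] at a2
          exact Option.some.inj a2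
      have h5 : r = r' := Subtype.ext (congrArg Prod.fst h4)
      have h6 : y = y' := congrArg Prod.snd h4
      subst h5 h6
      rfl
    rw [Nat.card_prod, Nat.card_prod, hS] at hT
    have hB : Nat.card Bool = 2 := by simp
    rw [hB] at hT
    have hK := wstates_ncard n
    unfold Mach.size
    rw [hA, hS]
    rw [hQ] at hT hF ⊢
    omega

/-! ### The final statement -/

theorem costs_le {cv : Bool} {n s : ℕ} (h : s ∈ costs cv n) : s ≤ 2 ^ (n ^ 4) := by
  obtain ⟨A, fA, M, hM, hs⟩ := h
  obtain ⟨D, hD, hL, hsz⟩ := upper M cv n hM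
  exact (hs.2 ⟨D, hD, hL cv, rfl⟩).trans hsz

theorem exists_cost {A : Type} [Finite A] (M : LA A) (cv : Bool) {n : ℕ}
    (hM : M.toMach.size ≤ n) :
    ∃ s ∈ costs cv n, ∃ D : LA A, D.toMach.Det ∧ D.toMach.lang cv = M.toMach.lang cv ∧
      D.toMach.size = s := by
  have hne : {t | ∃ D : LA A, D.toMach.Det ∧ D.toMach.lang cv = M.toMach.lang cv ∧
      D.toMach.size = t}.Nonempty := by
    obtain ⟨D, hD, hL, _⟩ := upper M cv n hM
    exact ⟨_, D, hD, hL cv, rfl⟩
  refine ⟨sInf _, ⟨A, ‹_›, M, hM, Nat.sInf_mem hne, fun t ht => Nat.sInf_le ht⟩, Nat.sInf_mem hne⟩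

theorem main (cv : Bool) (n : ℕ) (hn : 4 ≤ n) :
    ∃ d, IsGreatest (costs cv n) d ∧ 2 ^ (n / 4000) ≤ d ∧ d ≤ 2 ^ (n ^ 4) := by
  have hbdd : BddAbove (costs cv n) := ⟨_, fun s hs => costs_le hs⟩
  have hne : (costs cv n).Nonempty := by
    let M : LA Empty := ⟨⟨Unit, Empty, fun _ _ => ∅, (), ∅⟩, inferInstance, inferInstance⟩
    have hM : M.toMach.size ≤ n := by
      have h1 : Nat.card M.toMach.Q = 1 := Nat.card_unique (α := Unit)
      have h2 : Nat.card (Sym Empty M.toMach.W) = 2 := by
        have := card_sym Empty Empty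
        simpa using this
      have h3 : Nat.card {t : (M.toMach.Q × Sym Empty M.toMach.W) ×
          (M.toMach.Q × (Empty ⊕ M.toMach.W) × Bool) // t.2 ∈ M.toMach.δ t.1.1 t.1.2} = 0 := by
        have : IsEmpty {t : (M.toMach.Q × Sym Empty M.toMach.W) ×
          (M.toMach.Q × (Empty ⊕ M.toMach.W) × Bool) // t.2 ∈ M.toMach.δ t.1.1 t.1.2} :=
          ⟨fun t => t.2⟩
        exact Nat.card_of_isEmpty
      have h4 : M.toMach.F.ncard = 0 := Set.ncard_empty _
      unfold Mach.size
      rw [h1, h2, h3, h4]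
      simp
      omega
    obtain ⟨s, hs, _⟩ := exists_cost M cv hM
    exact ⟨s, hs⟩
  have hmem := Nat.sSup_mem hne hbdd
  refine ⟨sSup (costs cv n), ⟨hmem, fun s hs => le_csSup hbdd hs⟩, ?_, costs_le hmem⟩
  rcases Nat.lt_or_ge n 4000 with hlt | hge
  · rw [Nat.div_eq_of_lt hlt, pow_zero]
    obtain ⟨A, fA, M, hM, ⟨D, hD, hL, hs⟩, _⟩ := hmem
    rw [← hs]
    unfold Mach.size
    omega
  · have h1 : 1 ≤ n / 2000 := by omega
    obtain ⟨M, hL, hsz⟩ := exists_small (n / 2000) h1
    obtain ⟨s, hs, D, hD, hL', hsize⟩ := exists_cost M cv (n := n) (by omega)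
    have h2 := det_lower (n / 2000) h1 D hD cv (by rw [hL', hL cv])
    have h3 : 2 ^ (n / 4000) ≤ s := by
      rw [hsize] at h2
      have h4 : (2 ^ (n / 4000)) ^ 2 ≤ s ^ 2 := by
        rw [← pow_mul]
        refine le_trans (Nat.pow_le_pow_right (by norm_num) ?_) h2
        omega
      exact (Nat.pow_le_pow_iff_left (by norm_num)).1 h4
    exact h3.trans (le_csSup hbdd hs)

end Pool.Agent.P0036f5v2
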