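import Mathlib

/-!
# One-limited automata: definitions

Faithful model of the machines of the problem file.  A machine over the input alphabet `A` has a set
of states `Q` and a set `W` of extra work symbols; its work alphabet is
`Sym A W = A + W + {left end-marker, right end-marker}`.
-/

set_option autoImplicit false

namespace Pool.Agent.P0036f5v2

/-- The work alphabet: input letters, extra work symbols and the two end-markers. -/
inductive Sym (A W : Type) : Type
  | inp (a : A)
  | wrk (x : W)
  | lend
  | rend

/-- The symbols that may be written (everything except the end-markers), seen as tape symbols. -/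
def Sym.ofW {A W : Type} : A ⊕ W → Sym A W
  | Sum.inl a => Sym.inp a
  | Sum.inr x => Sym.wrk x

/-- For `cv = true`: writing `x` does not change the frozen symbol `g`, unless `g` is an
end-marker (which is never changed anyway).  For `cv = false`: no condition. -/
def OkW {A W : Type} (cv : Bool) (g : Sym A W) (x : A ⊕ W) : Prop :=
  cv = true → g ≠ Sym.lend → g ≠ Sym.rend → Sym.ofW x = g

/-- A machine over the input alphabet `A` (no finiteness yet).  `(q', x, d) ∈ δ q s` means: in state
`q` scanning `s` it may go to state `q'`, write `x` and move right (`d = true`) or left
(`d = false`). -/
structure Mach (A : Type) where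
  Q : Type
  W : Type
  δ : Q → Sym A W → Set (Q × (A ⊕ W) × Bool)
  qI : Q
  F : Set Q

/-- A 1-limited automaton over `A`: a machine with finitely many states and work symbols. -/
structure LA (A : Type) extends Mach A where
  finQ : Finite Q
  finW : Finite W

namespace Mach

variable {A : Type} (M : Mach A)

/-- Configurations: state, head position, tape, and the set of cells visited so far. -/
structure Cfg where
  st : M.Q
  pos : ℕ
  tape : ℕ → Sym A M.W
  seen : Set ℕ

/-- The initial tape: left end-marker in cell `0`, the input in cells `1, …, |w|`, then the right
end-marker. -/
def initTape (w : List A) (j : ℕ) : Sym A M.W :=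
  if j = 0 then Sym.lend else
    match w[j - 1]? with
    | some a => Sym.inp a
    | none => Sym.rend

/-- The initial configuration: initial state, head on cell `1`. -/
def init (w : List A) : M.Cfg := ⟨M.qI, 1, M.initTape w, ∅⟩

/-- One move on an input of length `m`.  The tape has the cells `0, …, m + 1`.  The written symbol
replaces the content of the scanned cell only if that cell is not an end-marker cell and is visited
for the first time.  The head cannot move left from cell `0`.  The Boolean `cv` fixes how a
transition is read that would write, in a cell visited before, a symbol different from its content: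
if `cv = false` it can be used and nothing is written, if `cv = true` it cannot be used (transitions
on end-marker cells can always be used). -/
def Step (cv : Bool) (m : ℕ) (c c' : M.Cfg) : Prop :=
  c.pos ≤ m + 1 ∧ ∃ (x : A ⊕ M.W) (d : Bool),
    (c'.st, x, d) ∈ M.δ c.st (c.tape c.pos) ∧
    (c.pos = 0 → d = true) ∧
    c'.pos = (if d = true then c.pos + 1 else c.pos - 1) ∧
    (1 ≤ c.pos ∧ c.pos ≤ m ∧ c.pos ∉ c.seen →
      c'.tape = Function.update c.tape c.pos (Sym.ofW x)) ∧
    (¬ (1 ≤ c.pos ∧ c.pos ≤ m ∧ c.pos ∉ c.seen) →
      c'.tape = c.tape ∧ OkW cv (c.tape c.pos) x) ∧
    c'.seen = insert c.pos c.seen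

/-- The accepted language: some computation ends by moving right past the right end-marker in a
final state. -/
def lang (cv : Bool) : Language A :=
  {w | ∃ c : M.Cfg, Relation.ReflTransGen (M.Step cv w.length) (M.init w) c ∧
    c.pos = w.length + 2 ∧ c.st ∈ M.F}

/-- Determinism: at most one transition for every state and every work symbol. -/
def Det : Prop := ∀ q s, (M.δ q s).Subsingleton

/-- The size of a description: the states, the input letters, the work symbols, the initial state
and the final states are listed, and every transition is written as five symbols. -/
noncomputable def size : ℕ :=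
  Nat.card M.Q + Nat.card A + Nat.card (Sym A M.W) + 1 + M.F.ncard +
    5 * Nat.card {t : (M.Q × Sym A M.W) × (M.Q × (A ⊕ M.W) × Bool) // t.2 ∈ M.δ t.1.1 t.1.2}

end Mach

/-- The set whose maximum is `D(n)`: the sizes `s` such that, for some 1-limited automaton `M` of
size at most `n` over some finite input alphabet, `s` is the least size of a deterministic
1-limited automaton accepting the same language as `M` (under the convention `cv`). -/
def costs (cv : Bool) (n : ℕ) : Set ℕ :=
  {s | ∃ (A : Type) (_ : Finite A) (M : LA A), M.toMach.size ≤ n ∧
    IsLeast {t | ∃ D : LA A, D.toMach.Det ∧ D.toMach.lang cv = M.toMach.lang cv ∧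
      D.toMach.size = t} s}

end Pool.Agent.P0036f5v2
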