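import Pool.Agent.Lib.P0036f5v2.Defs

/-!
# Restricting a machine to a closed set of states
-/

set_option autoImplicit false

namespace Pool.Agent.P0036f5v2

open Relation

namespace Mach

variable {A : Type} (M : Mach A) (cv : Bool)

/-- the machine restricted to the set `K` of states -/
@[reducible] def restrict (K : Set M.Q) (hI : M.qI ∈ K) : Mach A where
  Q := K
  W := M.W
  δ := fun q s => {x | (x.1.1, x.2) ∈ M.δ q.1 s}
  qI := ⟨M.qI, hI⟩
  F := {q | q.1 ∈ M.F}

theorem restrict_det (K : Set M.Q) (hI : M.qI ∈ K) (hM : M.Det) : (M.restrict K hI).Det := by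
  intro q s x hx y hy
  have h := hM _ _ hx hy
  have h1 : x.1.1 = y.1.1 := congrArg (fun t => t.1) h
  have h2 : x.2 = y.2 := congrArg (fun t => t.2) h
  exact Prod.ext (Subtype.ext h1) h2

theorem restrict_lang (K : Set M.Q) (hI : M.qI ∈ K)
    (hK : ∀ q ∈ K, ∀ s, ∀ x ∈ M.δ q s, x.1 ∈ K) : (M.restrict K hI).lang cv = M.lang cv := by
  ext w
  constructor
  · rintro ⟨c, hr, hp, hF⟩
    let φ : (M.restrict K hI).Cfg → M.Cfg := fun c => ⟨c.st.1, c.pos, c.tape, c.seen⟩
    refine ⟨φ c, ?_, hp, hF⟩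
    have : ReflTransGen (M.Step cv w.length) (φ ((M.restrict K hI).init w)) (φ c) := by
      refine ReflTransGen.lift φ ?_ _ _ hr
      rintro a b ⟨h1, x, d, h2, h3, h4, h5, h6, h7⟩
      exact ⟨h1, x, d, h2, h3, h4, h5, h6, h7⟩
    exact this
  · rintro ⟨c, hr, hp, hF⟩
    have key : ∀ c : M.Cfg, ReflTransGen (M.Step cv w.length) (M.init w) c →
        ∃ h : c.st ∈ K, ReflTransGen ((M.restrict K hI).Step cv w.length)
          ((M.restrict K hI).init w) ⟨⟨c.st, h⟩, c.pos, c.tape, c.seen⟩ := by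
      intro c hr
      induction hr with
      | refl => exact ⟨hI, ReflTransGen.refl⟩
      | @tail b c _ hbc ih =>
        obtain ⟨hb, hrb⟩ := ih
        obtain ⟨h1, x, d, h2, h3, h4, h5, h6, h7⟩ := hbc
        have hc : c.st ∈ K := hK _ hb _ _ h2
        exact ⟨hc, hrb.tail ⟨h1, x, d, h2, h3, h4, h5, h6, h7⟩⟩
    obtain ⟨h, hr'⟩ := key c hr
    exact ⟨_, hr', hp, hF⟩

end Mach

end Pool.Agent.P0036f5v2
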