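import Pool.Agent.Lib.P0036f5v2.Prog

/-!
# The block program of a nondeterministic automaton

The input is cut into blocks of length `N`, the number of states.  The bits written in a block
encode the set of states reachable at the beginning of that block.  The next bit is computed from
the previous block by divide and conquer.
-/

set_option autoImplicit false

namespace Pool.Agent.P0036f5v2

open Classical

variable {A S : Type} (𝒩 : NFA A S) (N : ℕ) (st : ℕ → S)

/-- is `t` reachable from `s` along the `L ≤ 2 ^ κ` letters at the distances `D, D - 1, …`? -/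
noncomputable def reachT : ℕ → S → S → ℕ → ℕ → DT (Option (A × Bool))
  | 0, s, t, D, L =>
      if L = 0 then .ret (decide (s = t))
      else .ask D fun x => .ret (decide (∃ a b, x = some (a, b) ∧ t ∈ 𝒩.step s a))
  | κ + 1, s, t, D, L =>
      .orN (fun u => (reachT κ s (st u) D (min L (2 ^ κ))).and
        (reachT κ (st u) t (D - min L (2 ^ κ)) (L - min L (2 ^ κ)))) N

/-- the letters at the distances `D, D - 1, …, D - L + 1` form the word `u` -/
def Reads (v : ℕ → Option (A × Bool)) (D L : ℕ) (u : List A) : Prop :=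
  u.length = L ∧ ∀ j (hj : j < u.length), ∃ b, v (D - j) = some (u[j], b)

theorem Reads.take {v : ℕ → Option (A × Bool)} {D L : ℕ} {u : List A} (h : Reads v D L u)
    (L₁ : ℕ) (h₁ : L₁ ≤ L) : Reads v D L₁ (u.take L₁) := by
  refine ⟨by rw [List.length_take, h.1]; omega, fun j hj => ?_⟩
  rw [List.length_take] at hj
  obtain ⟨b, hb⟩ := h.2 j (by omega)
  exact ⟨b, by rw [hb, List.getElem_take]⟩

theorem Reads.drop {v : ℕ → Option (A × Bool)} {D L : ℕ} {u : List A} (h : Reads v D L u)
    (L₁ : ℕ) : Reads v (D - L₁) (L - L₁) (u.drop L₁) := by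
  refine ⟨by rw [List.length_drop, h.1], fun j hj => ?_⟩
  rw [List.length_drop] at hj
  obtain ⟨b, hb⟩ := h.2 (L₁ + j) (by omega)
  refine ⟨b, ?_⟩
  rw [List.getElem_drop, ← hb]
  congr 1
  omega

theorem eval_reachT (hst : ∀ s, ∃ x < N, st x = s) (v : ℕ → Option (A × Bool)) :
    ∀ (κ : ℕ) (s t : S) (D L : ℕ) (u : List A), Reads v D L u → L ≤ 2 ^ κ →
      ((reachT 𝒩 N st κ s t D L).eval v = true ↔ t ∈ 𝒩.evalFrom {s} u) := by
  intro κ
  induction κ with
  | zero =>
    intro s t D L u hR hL
    rw [reachT]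
    split_ifs with h0
    · subst h0
      have : u = [] := List.length_eq_zero_iff.1 hR.1
      subst this
      simp [DT.eval, eq_comm]
    · have hL1 : L = 1 := by simp at hL; omega
      subst hL1
      obtain ⟨a, rfl⟩ := List.length_eq_one_iff.1 hR.1
      obtain ⟨b, hb⟩ := hR.2 0 (by simp)
      simp only [Nat.sub_zero, List.getElem_cons_zero] at hb
      simp [DT.eval, hb]
  | succ κ ih =>
    intro s t D L u hR hL
    rw [reachT, DT.eval_orN]
    have hL' : L ≤ 2 * 2 ^ κ := by rw [pow_succ] at hL; omega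
    have key : ∀ x, ((reachT 𝒩 N st κ s (st x) D (min L (2 ^ κ))).and
        (reachT 𝒩 N st κ (st x) t (D - min L (2 ^ κ)) (L - min L (2 ^ κ)))).eval v = true ↔
        st x ∈ 𝒩.evalFrom {s} (u.take (min L (2 ^ κ))) ∧
          t ∈ 𝒩.evalFrom {st x} (u.drop (min L (2 ^ κ))) := by
      intro x
      rw [DT.eval_and, Bool.and_eq_true,
        ih s (st x) D _ (u.take (min L (2 ^ κ))) (hR.take _ (min_le_left _ _)) (min_le_right _ _),
        ih (st x) t _ _ (u.drop (min L (2 ^ κ))) (hR.drop _) (by omega)]
    have hsplit : 𝒩.evalFrom {s} u = 𝒩.evalFrom (𝒩.evalFrom {s} (u.take (min L (2 ^ κ))))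
        (u.drop (min L (2 ^ κ))) := by
      rw [← NFA.evalFrom_append, List.take_append_drop]
    rw [hsplit]
    constructor
    · rintro ⟨x, hx, h⟩
      obtain ⟨h1, h2⟩ := (key x).1 h
      exact NFA.mem_evalFrom_iff_exists.2 ⟨st x, h1, h2⟩
    · intro h
      obtain ⟨r, hr1, hr2⟩ := NFA.mem_evalFrom_iff_exists.1 h
      obtain ⟨x, hx, rfl⟩ := hst r
      exact ⟨x, hx, (key x).2 ⟨hr1, hr2⟩⟩

theorem within_reachT : ∀ (κ : ℕ) (s t : S) (D L : ℕ), L ≤ D →
    (reachT 𝒩 N st κ s t D L).Within D := by
  intro κ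
  induction κ with
  | zero =>
    intro s t D L hL
    rw [reachT]
    split_ifs with h0
    · trivial
    · exact ⟨by omega, le_rfl, fun _ => trivial⟩
  | succ κ ih =>
    intro s t D L hL
    rw [reachT]
    refine DT.within_orN _ _ fun x _ => DT.within_and ?_ ?_
    · exact ih _ _ _ _ ((min_le_left _ _).trans hL)
    · exact (ih _ _ _ _ (Nat.sub_le_sub_right hL _)).mono (Nat.sub_le _ _)

theorem nd_reachT_le [Finite A] : ∀ (κ : ℕ) (s t : S) (D L : ℕ),
    (reachT 𝒩 N st κ s t D L).nd ≤ (2 * N) ^ κ := by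
  intro κ
  induction κ with
  | zero =>
    intro s t D L
    rw [reachT]
    split_ifs with h0
    · simp [DT.nd_ret]
    · unfold DT.nd DT.asks
      simp [DT.asks]
  | succ κ ih =>
    intro s t D L
    rw [reachT]
    refine (DT.nd_orN_le _ N (2 * (2 * N) ^ κ) fun x _ => ?_).trans ?_
    · refine (DT.nd_and_le _ _).trans ?_
      have h1 := ih s (st x) D (min L (2 ^ κ))
      have h2 := ih (st x) t (D - min L (2 ^ κ)) (L - min L (2 ^ κ))
      omega
    · rw [pow_succ]
      apply le_of_eq
      ring

/-- the stored bit -/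
def getbit (x : Option (A × Bool)) : DT (Option (A × Bool)) :=
  .ret (match x with
    | some (_, b) => b
    | none => false)

/-- test whether the stored bit at distance `d` is set -/
def askbit (d : ℕ) : DT (Option (A × Bool)) := .ask d getbit

theorem nd_askbit_le (d : ℕ) [Finite A] : (askbit d : DT (Option (A × Bool))).nd ≤ 1 := by
  unfold DT.nd askbit DT.asks getbit
  simp [DT.asks]

/-- from `st x` to some accepting state, along the last `r` letters -/
noncomputable def accT (κ x r : ℕ) : DT (Option (A × Bool)) :=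
  .orN (fun y => if st y ∈ 𝒩.accept then reachT 𝒩 N st κ (st x) (st y) r r else .ret false) N

/-- the block program -/
noncomputable def blockProg (κ : ℕ) : Prog A where
  nxt := fun r => if r + 1 < 2 * N then r + 1 else N
  b0 := decide (st 0 ∈ 𝒩.start)
  bit := fun r =>
    if r < N then .ret (decide (st r ∈ 𝒩.start))
    else .orN (fun x => (askbit (r - x)).and (reachT 𝒩 N st κ (st x) (st (r - N)) r N)) N
  acc := fun r =>
    if r < N then
      .orN (fun x => if st x ∈ 𝒩.start then accT 𝒩 N st κ x r else .ret false) N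
    else .orN (fun x => (askbit (r - x)).and (accT 𝒩 N st κ x r)) N

/-- the phase after `i` letters -/
theorem ph_blockProg (κ : ℕ) (hN : 0 < N) (i : ℕ) :
    (blockProg 𝒩 N st κ).ph i = if i < N then i else N + i % N := by
  induction i with
  | zero => simp [Prog.ph, hN]
  | succ i ih =>
    rw [Prog.ph, ih]
    simp only [blockProg]
    have hm : i % N < N := Nat.mod_lt _ hN
    have hmod1 : i % N + 1 = N → (i + 1) % N = 0 := by
      intro h
      have h2 := Nat.div_add_mod i N
      have h3 : i + 1 = N * (i / N + 1) := by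
        rw [Nat.mul_add, Nat.mul_one]; omega
      rw [h3, Nat.mul_mod_right]
    have hmod2 : i % N + 1 ≠ N → (i + 1) % N = i % N + 1 := by
      intro h
      have h2 := Nat.div_add_mod i N
      have h3 : i + 1 = N * (i / N) + (i % N + 1) := by omega
      rw [h3, Nat.mul_add_mod, Nat.mod_eq_of_lt (by omega)]
    by_cases h1 : i < N
    · rw [if_pos h1]
      by_cases h2 : i + 1 < N
      · rw [if_pos h2, if_pos (by omega)]
      · rw [if_neg h2]
        have hi : i + 1 = N := by omega
        by_cases h3 : i + 1 < 2 * N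
        · rw [if_pos h3, hi, Nat.mod_self]; rfl
        · omega
    · rw [if_neg h1]
      have h2 : ¬ (i + 1 < N) := by omega
      rw [if_neg h2]
      by_cases h3 : i % N + 1 = N
      · rw [hmod1 h3, if_neg (by omega)]; rfl
      · rw [hmod2 h3, if_pos (by omega)]; omega

/-- the bit of the letter with index `i` -/
noncomputable def bitOf (w : List A) (i : ℕ) : Bool :=
  decide (st (i % N) ∈ 𝒩.evalFrom 𝒩.start (w.take (N * (i / N))))

theorem eval_askbit_view (w : List A) (β : ℕ → Bool) (n d : ℕ) (h : n - d < w.length) :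
    (askbit d).eval (Prog.view w β n) = β (n - d) := by
  simp [askbit, getbit, DT.eval, Prog.view, Prog.cellv, List.getElem?_eq_getElem h]

theorem reads_view (w : List A) (β : ℕ → Bool) (n D L : ℕ) (hn : n ≤ w.length) (hD : D ≤ n)
    (hL : L ≤ D) : Reads (Prog.view w β n) D L ((w.drop (n - D)).take L) := by
  refine ⟨by simp; omega, fun j hj => ?_⟩
  simp at hj
  refine ⟨β (n - D + j), ?_⟩
  have h1 : n - D + j < w.length := by omega
  rw [List.getElem_take, List.getElem_drop]
  have h2 : n - (D - j) = n - D + j := by omega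
  simp [Prog.view, Prog.cellv, h2, List.getElem?_eq_getElem h1]

theorem eval_accT (hst : ∀ s, ∃ x < N, st x = s) (κ : ℕ) (v : ℕ → Option (A × Bool))
    (x r : ℕ) (u : List A) (hR : Reads v r r u) (hr : r ≤ 2 ^ κ) :
    (accT 𝒩 N st κ x r).eval v = true ↔ ∃ t ∈ 𝒩.accept, t ∈ 𝒩.evalFrom {st x} u := by
  rw [accT, DT.eval_orN]
  constructor
  · rintro ⟨y, hy, h⟩
    split_ifs at h with ha
    · exact ⟨st y, ha, (eval_reachT 𝒩 N st hst v κ _ _ r r u hR hr).1 h⟩
    · simp [DT.eval] at h
  · rintro ⟨t, ht, h⟩
    obtain ⟨y, hy, rfl⟩ := hst t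
    refine ⟨y, hy, ?_⟩
    rw [if_pos ht]
    exact (eval_reachT 𝒩 N st hst v κ _ _ r r u hR hr).2 h

theorem within_accT (κ x r : ℕ) : (accT 𝒩 N st κ x r).Within r := by
  refine DT.within_orN _ _ fun y _ => ?_
  split_ifs
  · exact within_reachT 𝒩 N st κ _ _ r r le_rfl
  · trivial

theorem within_askbit {d n : ℕ} (h1 : 1 ≤ d) (h2 : d ≤ n) :
    (askbit d : DT (Option (A × Bool))).Within n := ⟨h1, h2, fun _ => trivial⟩

/-- arithmetic of blocks -/
theorem block_arith (hN : 0 < N) (i : ℕ) (hi : N ≤ i) :
    N + i % N ≤ i ∧ i - (N + i % N) = N * (i / N - 1) ∧ N * (i / N - 1) + N = N * (i / N) := by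
  have h1 : 1 ≤ i / N := (Nat.one_le_div_iff hN).2 hi
  have h2 := Nat.div_add_mod i N
  obtain ⟨q, hq⟩ : ∃ q, i / N = q + 1 := ⟨i / N - 1, by omega⟩
  rw [hq] at h2 ⊢
  have h3 : N * (q + 1) = N * q + N := by ring
  rw [Nat.add_sub_cancel]
  omega

/-- The machine of the block program recognises the language of the automaton. -/
theorem blockProg_lang (cv : Bool) (hN : 0 < N) (hst : ∀ s, ∃ x < N, st x = s) (κ : ℕ)
    (hκ : 2 * N ≤ 2 ^ κ) : (blockProg 𝒩 N st κ).mach.lang cv = 𝒩.accepts := by
  ext w
  -- reachable states at block starts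
  have hblock : ∀ (i x : ℕ), i ≤ w.length → N ≤ i → x < N →
      (askbit (N + i % N - x)).eval (Prog.view w (bitOf 𝒩 N st w) i) =
        decide (st x ∈ 𝒩.evalFrom 𝒩.start (w.take (N * (i / N - 1)))) := by
    intro i x hi hNi hx
    obtain ⟨a1, a2, a3⟩ := block_arith N hN i hNi
    rw [eval_askbit_view _ _ _ _ (by omega)]
    have e1 : i - (N + i % N - x) = x + N * (i / N - 1) := by omega
    rw [e1, bitOf, Nat.add_mul_mod_self_left, Nat.mod_eq_of_lt hx,
      Nat.add_mul_div_left _ _ hN, Nat.div_eq_of_lt hx, Nat.zero_add]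
  rw [Prog.mem_lang _ cv w (bitOf 𝒩 N st w)]
  · -- acceptance
    rw [ph_blockProg 𝒩 N st κ hN, NFA.mem_accepts]
    by_cases hlt : w.length < N
    · rw [if_pos hlt]
      simp only [blockProg]
      rw [if_pos hlt, DT.eval_orN]
      have hR : Reads (Prog.view w (bitOf 𝒩 N st w) w.length) w.length w.length w := by
        have := reads_view w (bitOf 𝒩 N st w) w.length w.length w.length le_rfl le_rfl le_rfl
        simpa using this
      constructor
      · rintro ⟨x, hx, h⟩
        split_ifs at h with hs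
        · obtain ⟨t, ht, h'⟩ := (eval_accT 𝒩 N st hst κ _ x _ w hR (by omega)).1 h
          exact ⟨t, ht, NFA.mem_evalFrom_iff_exists.2 ⟨st x, hs, h'⟩⟩
        · simp [DT.eval] at h
      · rintro ⟨t, ht, h⟩
        obtain ⟨s, hs, h'⟩ := NFA.mem_evalFrom_iff_exists.1 h
        obtain ⟨x, hx, rfl⟩ := hst s
        refine ⟨x, hx, ?_⟩
        rw [if_pos hs]
        exact (eval_accT 𝒩 N st hst κ _ x _ w hR (by omega)).2 ⟨t, ht, h'⟩
    · rw [if_neg hlt]
      push Not at hlt
      have hm := Nat.mod_lt w.length hN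
      obtain ⟨a1, a2, a3⟩ := block_arith N hN w.length hlt
      have hr : ¬ (N + w.length % N < N) := by omega
      simp only [blockProg]
      rw [if_neg hr, DT.eval_orN]
      have hR : Reads (Prog.view w (bitOf 𝒩 N st w) w.length) (N + w.length % N)
          (N + w.length % N) (w.drop (N * (w.length / N - 1))) := by
        have := reads_view w (bitOf 𝒩 N st w) w.length (N + w.length % N) (N + w.length % N)
          le_rfl a1 le_rfl
        rw [a2] at this
        rwa [List.take_of_length_le (by simp; omega)] at this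
      have hsplit : 𝒩.evalFrom 𝒩.start w =
          𝒩.evalFrom (𝒩.evalFrom 𝒩.start (w.take (N * (w.length / N - 1))))
            (w.drop (N * (w.length / N - 1))) := by
        rw [← NFA.evalFrom_append, List.take_append_drop]
      constructor
      · rintro ⟨x, hx, h⟩
        rw [DT.eval_and, Bool.and_eq_true, hblock _ _ le_rfl hlt hx, decide_eq_true_eq] at h
        obtain ⟨t, ht, h'⟩ := (eval_accT 𝒩 N st hst κ _ x _ _ hR (by omega)).1 h.2
        refine ⟨t, ht, ?_⟩
        rw [hsplit]
        exact NFA.mem_evalFrom_iff_exists.2 ⟨st x, h.1, h'⟩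
      · rintro ⟨t, ht, h⟩
        rw [hsplit] at h
        obtain ⟨s, hs, h'⟩ := NFA.mem_evalFrom_iff_exists.1 h
        obtain ⟨x, hx, rfl⟩ := hst s
        refine ⟨x, hx, ?_⟩
        rw [DT.eval_and, Bool.and_eq_true, hblock _ _ le_rfl hlt hx, decide_eq_true_eq]
        exact ⟨hs, (eval_accT 𝒩 N st hst κ _ x _ _ hR (by omega)).2 ⟨t, ht, h'⟩⟩
  · -- the initial bit
    simp [bitOf, blockProg]
  · -- the bits
    intro i hi
    rw [ph_blockProg 𝒩 N st κ hN]
    by_cases hlt : i + 1 < N
    · rw [if_pos hlt]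
      simp only [blockProg]
      rw [if_pos hlt]
      refine ⟨trivial, ?_⟩
      rw [bitOf, Nat.mod_eq_of_lt hlt, Nat.div_eq_of_lt hlt]
      simp [DT.eval]
    · rw [if_neg hlt]
      push Not at hlt
      have hm := Nat.mod_lt (i + 1) hN
      obtain ⟨a1, a2, a3⟩ := block_arith N hN (i + 1) hlt
      have hr : ¬ (N + (i + 1) % N < N) := by omega
      simp only [blockProg]
      rw [if_neg hr]
      constructor
      · refine DT.within_orN _ _ fun x hx => DT.within_and (within_askbit (by omega) (by omega)) ?_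
        exact (within_reachT 𝒩 N st κ _ _ _ _ (by omega)).mono a1
      · rw [Bool.eq_iff_iff, DT.eval_orN, bitOf, decide_eq_true_eq]
        have hR := reads_view w (bitOf 𝒩 N st w) (i + 1) (N + (i + 1) % N) N hi a1 (by omega)
        rw [a2] at hR
        have hsplit : 𝒩.evalFrom 𝒩.start (w.take (N * ((i + 1) / N))) =
            𝒩.evalFrom (𝒩.evalFrom 𝒩.start (w.take (N * ((i + 1) / N - 1))))
              ((w.drop (N * ((i + 1) / N - 1))).take N) := by
          rw [← NFA.evalFrom_append, ← a3, List.take_add]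
        have hsub : N + (i + 1) % N - N = (i + 1) % N := by omega
        rw [hsplit, hsub]
        constructor
        · rintro ⟨x, hx, h⟩
          rw [DT.eval_and, Bool.and_eq_true, hblock _ _ hi hlt hx, decide_eq_true_eq,
            eval_reachT 𝒩 N st hst _ κ _ _ _ _ _ hR (by omega)] at h
          exact NFA.mem_evalFrom_iff_exists.2 ⟨st x, h.1, h.2⟩
        · intro h
          obtain ⟨s, hs, h'⟩ := NFA.mem_evalFrom_iff_exists.1 h
          obtain ⟨x, hx, rfl⟩ := hst s
          refine ⟨x, hx, ?_⟩
          rw [DT.eval_and, Bool.and_eq_true, hblock _ _ hi hlt hx, decide_eq_true_eq,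
            eval_reachT 𝒩 N st hst _ κ _ _ _ _ _ hR (by omega)]
          exact ⟨hs, h'⟩
  · -- the acceptance tree looks only at visited cells
    rw [ph_blockProg 𝒩 N st κ hN]
    by_cases hlt : w.length < N
    · rw [if_pos hlt]
      simp only [blockProg]
      rw [if_pos hlt]
      refine DT.within_orN _ _ fun x _ => ?_
      split_ifs
      · exact within_accT 𝒩 N st κ x _
      · trivial
    · rw [if_neg hlt]
      push Not at hlt
      have hm := Nat.mod_lt w.length hN
      obtain ⟨a1, a2, a3⟩ := block_arith N hN w.length hlt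
      have hr : ¬ (N + w.length % N < N) := by omega
      simp only [blockProg]
      rw [if_neg hr]
      refine DT.within_orN _ _ fun x hx => DT.within_and (within_askbit (by omega) (by omega)) ?_
      exact (within_accT 𝒩 N st κ x _).mono a1

end Pool.Agent.P0036f5v2
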