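import Pool.Agent.Lib.P0036f5v2.ToNFA
import Pool.Agent.Lib.P0036f5v2.Savitch
import Pool.Agent.Lib.P0036f5v2.Restrict

/-!
# The single exponential upper bound
-/

set_option autoImplicit false

namespace Pool.Agent.P0036f5v2

open Classical

/-! ### Size of a deterministic machine -/

theorem card_sym (A W : Type) [Finite A] [Finite W] :
    Nat.card (Sym A W) = Nat.card A + Nat.card W + 2 := by
  have e : Sym A W ≃ (A ⊕ W) ⊕ Bool :=
    { toFun := fun s => match s with
        | .inp a => .inl (.inl a)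
        | .wrk x => .inl (.inr x)
        | .lend => .inr false
        | .rend => .inr true
      invFun := fun s => match s with
        | .inl (.inl a) => .inp a
        | .inl (.inr x) => .wrk x
        | .inr false => .lend
        | .inr true => .rend
      left_inv := by rintro (_ | _ | _ | _) <;> rfl
      right_inv := by rintro ((_ | _) | (_ | _)) <;> rfl }
  rw [Nat.card_congr e, Nat.card_sum, Nat.card_sum]
  simp

instance (A W : Type) [Finite A] [Finite W] : Finite (Sym A W) := by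
  have f : Sym A W → (A ⊕ W) ⊕ Bool := fun s => match s with
    | .inp a => .inl (.inl a)
    | .wrk x => .inl (.inr x)
    | .lend => .inr false
    | .rend => .inr true
  refine Finite.of_injective (β := (A ⊕ W) ⊕ Bool) (fun s => match s with
    | .inp a => .inl (.inl a)
    | .wrk x => .inl (.inr x)
    | .lend => .inr false
    | .rend => .inr true) ?_
  rintro (_ | _ | _ | _) (_ | _ | _ | _) h <;> simp_all

theorem Mach.size_le_of_det {A : Type} [Finite A] (M : Mach A) [Finite M.Q] [Finite M.W]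
    (hM : M.Det) :
    M.size ≤ 2 * Nat.card M.Q + Nat.card A + Nat.card (Sym A M.W) + 1 +
      5 * (Nat.card M.Q * Nat.card (Sym A M.W)) := by
  have h1 : M.F.ncard ≤ Nat.card M.Q := Set.ncard_le_card M.F
  have h2 : Nat.card {t : (M.Q × Sym A M.W) × (M.Q × (A ⊕ M.W) × Bool) //
      t.2 ∈ M.δ t.1.1 t.1.2} ≤ Nat.card (M.Q × Sym A M.W) := by
    refine Nat.card_le_card_of_injective (fun t => t.1.1) ?_
    rintro ⟨⟨a, b⟩, h⟩ ⟨⟨a', b'⟩, h'⟩ heq
    simp only at heq h h'
    subst heq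
    have := hM _ _ h h'
    subst this
    rfl
  rw [Nat.card_prod] at h2
  unfold Mach.size
  omega

/-! ### The finite set of states of the block machine -/

section

variable {A S : Type} (𝒩 : NFA A S) (N : ℕ) (st : ℕ → S) (κ : ℕ)

theorem DT.le_of_mem_asks {α : Type} {n : ℕ} {t : DT α} (ht : t.Within n) {d : ℕ}
    {k : α → DT α} (h : DT.ask d k ∈ t.asks) : d ≤ n := by
  induction t with
  | ret b => exact absurd h (Set.notMem_empty _)
  | ask d' k' ih =>
    rcases h with h | h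
    · have h1 : d = d' := by
        injection h
      rw [h1]
      exact ht.2.1
    · obtain ⟨a, ha⟩ := Set.mem_iUnion.1 h
      exact ih a (ht.2.2 a) ha

/-- all trees that can occur -/
def trees : Set (DT (Option (A × Bool))) :=
  {.ret true, .ret false} ∪ ⋃ r ∈ Finset.range (2 * N),
    (((blockProg 𝒩 N st κ).bit r).asks ∪ ((blockProg 𝒩 N st κ).acc r).asks)

theorem ret_mem_trees (b : Bool) : DT.ret b ∈ trees 𝒩 N st κ := by
  cases b
  · exact Or.inl (Or.inr rfl)
  · exact Or.inl (Or.inl rfl)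

theorem bit_mem_trees (r : ℕ) (hr : r < 2 * N) :
    (blockProg 𝒩 N st κ).bit r ∈ trees 𝒩 N st κ := by
  rcases DT.self_mem_asks ((blockProg 𝒩 N st κ).bit r) with h | ⟨b, hb⟩
  · exact Or.inr (Set.mem_biUnion (Finset.mem_coe.2 (Finset.mem_range.2 hr)) (Or.inl h))
  · rw [hb]; exact ret_mem_trees 𝒩 N st κ b

theorem acc_mem_trees (r : ℕ) (hr : r < 2 * N) :
    (blockProg 𝒩 N st κ).acc r ∈ trees 𝒩 N st κ := by
  rcases DT.self_mem_asks ((blockProg 𝒩 N st κ).acc r) with h | ⟨b, hb⟩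
  · exact Or.inr (Set.mem_biUnion (Finset.mem_coe.2 (Finset.mem_range.2 hr)) (Or.inr h))
  · rw [hb]; exact ret_mem_trees 𝒩 N st κ b

theorem child_mem_trees {d : ℕ} {f : Option (A × Bool) → DT (Option (A × Bool))}
    (h : DT.ask d f ∈ trees 𝒩 N st κ) (x : Option (A × Bool)) : f x ∈ trees 𝒩 N st κ := by
  rcases h with h | h
  · rcases h with h | h <;> simp at h
  · obtain ⟨r, hr, h⟩ := Set.mem_iUnion₂.1 h
    rcases h with h | h
    · rcases DT.asks_child h x with h' | ⟨b, hb⟩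
      · exact Or.inr (Set.mem_biUnion hr (Or.inl h'))
      · rw [hb]; exact ret_mem_trees 𝒩 N st κ b
    · rcases DT.asks_child h x with h' | ⟨b, hb⟩
      · exact Or.inr (Set.mem_biUnion hr (Or.inr h'))
      · rw [hb]; exact ret_mem_trees 𝒩 N st κ b

theorem within_bit (r : ℕ) : ((blockProg 𝒩 N st κ).bit r).Within r := by
  simp only [blockProg]
  split_ifs with h
  · trivial
  · refine DT.within_orN _ _ fun x hx => DT.within_and (within_askbit (by omega) (by omega)) ?_
    exact within_reachT 𝒩 N st κ _ _ _ _ (by omega)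

theorem within_acc (r : ℕ) : ((blockProg 𝒩 N st κ).acc r).Within r := by
  simp only [blockProg]
  split_ifs with h
  · refine DT.within_orN _ _ fun x _ => ?_
    split_ifs
    · exact within_accT 𝒩 N st κ x _
    · trivial
  · refine DT.within_orN _ _ fun x hx => DT.within_and (within_askbit (by omega) (by omega)) ?_
    exact within_accT 𝒩 N st κ x _

theorem dist_of_mem_trees {d : ℕ} {f : Option (A × Bool) → DT (Option (A × Bool))}
    (h : DT.ask d f ∈ trees 𝒩 N st κ) : d + 1 ≤ 2 * N := by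
  rcases h with h | h
  · rcases h with h | h <;> simp at h
  · obtain ⟨r, hr, h⟩ := Set.mem_iUnion₂.1 h
    have hr' : r < 2 * N := Finset.mem_range.1 (Finset.mem_coe.1 hr)
    rcases h with h | h
    · have := DT.le_of_mem_asks (within_bit 𝒩 N st κ r) h
      omega
    · have := DT.le_of_mem_asks (within_acc 𝒩 N st κ r) h
      omega

theorem nd_bit_le [Finite A] (r : ℕ) :
    ((blockProg 𝒩 N st κ).bit r).nd ≤ N * (1 + (2 * N) ^ κ) := by
  simp only [blockProg]
  split_ifs with h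
  · simp [DT.nd_ret]
  · refine DT.nd_orN_le _ N _ fun x _ => (DT.nd_and_le _ _).trans ?_
    exact Nat.add_le_add (nd_askbit_le _) (nd_reachT_le 𝒩 N st κ _ _ _ _)

theorem nd_accT_le [Finite A] (x r : ℕ) : (accT 𝒩 N st κ x r).nd ≤ N * (2 * N) ^ κ := by
  refine DT.nd_orN_le _ N _ fun y _ => ?_
  split_ifs
  · exact nd_reachT_le 𝒩 N st κ _ _ _ _
  · simp [DT.nd_ret]

theorem nd_acc_le [Finite A] (r : ℕ) :
    ((blockProg 𝒩 N st κ).acc r).nd ≤ N * (1 + N * (2 * N) ^ κ) := by
  simp only [blockProg]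
  split_ifs with h
  · refine DT.nd_orN_le _ N _ fun x _ => ?_
    split_ifs
    · exact (nd_accT_le 𝒩 N st κ x r).trans (by omega)
    · simp [DT.nd_ret]
  · refine DT.nd_orN_le _ N _ fun x _ => (DT.nd_and_le _ _).trans ?_
    exact Nat.add_le_add (nd_askbit_le _) (nd_accT_le 𝒩 N st κ x r)

theorem trees_finite [Finite A] : (trees 𝒩 N st κ).Finite := by
  refine Set.Finite.union (Set.toFinite _) ?_
  refine Set.Finite.biUnion (Finset.finite_toSet _) fun r _ => ?_
  exact (DT.asks_finite _).union (DT.asks_finite _)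

theorem trees_ncard_le [Finite A] :
    (trees 𝒩 N st κ).ncard ≤
      2 + 2 * N * (N * (1 + (2 * N) ^ κ) + N * (1 + N * (2 * N) ^ κ)) := by
  unfold trees
  refine (Set.ncard_union_le _ _).trans (Nat.add_le_add ?_ ?_)
  · exact (Set.ncard_insert_le _ _).trans (by simp)
  · have key : ∀ s : Finset ℕ, (⋃ r ∈ s, (((blockProg 𝒩 N st κ).bit r).asks ∪
        ((blockProg 𝒩 N st κ).acc r).asks)).ncard ≤
        s.card * (N * (1 + (2 * N) ^ κ) + N * (1 + N * (2 * N) ^ κ)) := by
      intro s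
      induction s using Finset.induction_on with
      | empty => simp
      | insert a s ha ih =>
        rw [Finset.set_biUnion_insert, Finset.card_insert_of_notMem ha, Nat.add_mul, Nat.one_mul,
          Nat.add_comm]
        refine (Set.ncard_union_le _ _).trans (Nat.add_le_add ?_ ih)
        refine (Set.ncard_union_le _ _).trans (Nat.add_le_add ?_ ?_)
        · exact nd_bit_le 𝒩 N st κ a
        · exact nd_acc_le 𝒩 N st κ a
    have := key (Finset.range (2 * N))
    rwa [Finset.card_range] at this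

/-- the states that can occur -/
def states : Set (PSt A) :=
  (fun p : ℕ × Bool => PSt.ready p.1 p.2) '' (Set.Iio (2 * N) ×ˢ Set.univ) ∪
    (fun p : Bool × ℕ × DT (Option (A × Bool)) × ℕ => PSt.eval p.1 p.2.1 p.2.2.1 p.2.2.2) ''
      (Set.univ ×ˢ Set.Iio (2 * N) ×ˢ trees 𝒩 N st κ ×ˢ Set.Iic (2 * N)) ∪ {.done}

theorem mem_states_ready {r : ℕ} {b : Bool} :
    PSt.ready r b ∈ states 𝒩 N st κ ↔ r < 2 * N := by
  unfold states
  cases b <;> simp

theorem mem_states_eval {k : Bool} {r : ℕ} {t : DT (Option (A × Bool))} {h : ℕ} :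
    PSt.eval k r t h ∈ states 𝒩 N st κ ↔ r < 2 * N ∧ t ∈ trees 𝒩 N st κ ∧ h ≤ 2 * N := by
  unfold states
  simp

theorem mem_states_done : (PSt.done : PSt A) ∈ states 𝒩 N st κ := Or.inr rfl

theorem states_finite [Finite A] : (states 𝒩 N st κ).Finite := by
  unfold states
  refine ((Set.Finite.image _ ?_).union (Set.Finite.image _ ?_)).union (Set.finite_singleton _)
  · exact (Set.finite_Iio _).prod Set.finite_univ
  · exact Set.finite_univ.prod ((Set.finite_Iio _).prod
      ((trees_finite 𝒩 N st κ).prod (Set.finite_Iic _)))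

theorem states_ncard_le [Finite A] :
    (states 𝒩 N st κ).ncard ≤
      2 * N * 2 + 2 * (2 * N * ((trees 𝒩 N st κ).ncard * (2 * N + 1))) + 1 := by
  unfold states
  refine (Set.ncard_union_le _ _).trans (Nat.add_le_add ?_ (by simp))
  refine (Set.ncard_union_le _ _).trans (Nat.add_le_add ?_ ?_)
  · refine (Set.ncard_image_le ((Set.finite_Iio _).prod Set.finite_univ)).trans ?_
    rw [Set.ncard_prod]
    simp [Set.ncard_eq_toFinset_card']
  · refine (Set.ncard_image_le (Set.finite_univ.prod ((Set.finite_Iio _).prod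
      ((trees_finite 𝒩 N st κ).prod (Set.finite_Iic _))))).trans ?_
    rw [Set.ncard_prod, Set.ncard_prod, Set.ncard_prod]
    simp [Set.ncard_eq_toFinset_card' (Set.Iio _), Set.ncard_eq_toFinset_card' (Set.Iic _)]

theorem states_closed (hN : 0 < N) : ∀ q ∈ states 𝒩 N st κ, ∀ s,
    ∀ x ∈ (blockProg 𝒩 N st κ).mach.δ q s, x.1 ∈ states 𝒩 N st κ := by
  intro q hq s x hx
  have hx' : (blockProg 𝒩 N st κ).tr q s = some x := hx
  match q, s with
  | .ready r b, .inp a =>
    simp only [Prog.tr, Option.some.injEq] at hx'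
    rw [mem_states_ready] at hq
    subst hx'
    have h1 : (blockProg 𝒩 N st κ).nxt r < 2 * N := by
      simp only [blockProg]
      split_ifs <;> omega
    exact (mem_states_eval 𝒩 N st κ).2 ⟨h1, bit_mem_trees 𝒩 N st κ _ h1, by omega⟩
  | .ready r b, .rend =>
    simp only [Prog.tr, Option.some.injEq] at hx'
    rw [mem_states_ready] at hq
    subst hx'
    exact (mem_states_eval 𝒩 N st κ).2 ⟨hq, acc_mem_trees 𝒩 N st κ _ hq, by omega⟩
  | .ready _ _, .wrk _ => simp [Prog.tr] at hx'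
  | .ready _ _, .lend => simp [Prog.tr] at hx'
  | .eval k r (.ret b) h, s =>
    rw [mem_states_eval] at hq
    simp only [Prog.tr] at hx'
    split_ifs at hx' with h1 h2 h3
    · simp only [Option.some.injEq] at hx'
      subst hx'
      exact mem_states_done 𝒩 N st κ
    · simp only [Option.some.injEq] at hx'
      subst hx'
      exact (mem_states_ready 𝒩 N st κ).2 hq.1
    · simp only [Option.some.injEq] at hx'
      subst hx'
      exact (mem_states_eval 𝒩 N st κ).2 ⟨hq.1, hq.2.1, by have := hq.2.2; omega⟩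
  | .eval k r (.ask d f) h, s =>
    rw [mem_states_eval] at hq
    have hd := dist_of_mem_trees 𝒩 N st κ hq.2.1
    simp only [Prog.tr] at hx'
    split_ifs at hx' with h1 h2
    · simp only [Option.some.injEq] at hx'
      subst hx'
      exact (mem_states_eval 𝒩 N st κ).2 ⟨hq.1, hq.2.1, by omega⟩
    · simp only [Option.some.injEq] at hx'
      subst hx'
      exact (mem_states_eval 𝒩 N st κ).2 ⟨hq.1, hq.2.1, by have := hq.2.2; omega⟩
    · cases s with
      | wrk y =>
        simp only [Option.some.injEq] at hx'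
        subst hx'
        exact (mem_states_eval 𝒩 N st κ).2
          ⟨hq.1, child_mem_trees 𝒩 N st κ hq.2.1 y, by omega⟩
      | inp _ => simp at hx'
      | lend => simp at hx'
      | rend => simp at hx'
  | .done, s =>
    simp only [Prog.tr, Option.some.injEq] at hx'
    subst hx'
    exact mem_states_done 𝒩 N st κ

end

/-- Determinisation of a one-way nondeterministic automaton with `N` states. -/
theorem exists_det_of_nfa {A S : Type} [Finite A] (𝒩 : NFA A S) (N : ℕ) (st : ℕ → S)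
    (hN : 0 < N) (hst : ∀ s, ∃ x < N, st x = s) (p : ℕ) (hp : 2 * N ≤ 2 ^ p)
    (ha : Nat.card A ≤ 2 ^ p) :
    ∃ D : LA A, D.toMach.Det ∧ (∀ cv, D.toMach.lang cv = 𝒩.accepts) ∧
      D.toMach.size ≤ 2 ^ (p ^ 2 + 6 * p + 10) := by
  have hI : (blockProg 𝒩 N st p).mach.qI ∈ states 𝒩 N st p :=
    (mem_states_ready 𝒩 N st p).2 (by omega)
  let M' : Mach A := (blockProg 𝒩 N st p).mach.restrict (states 𝒩 N st p) hI
  have fQ : Finite M'.Q := (states_finite 𝒩 N st p).to_subtype
  have fW : Finite M'.W := inferInstanceAs (Finite (Option (A × Bool)))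
  have hdet : M'.Det := Mach.restrict_det _ _ hI (blockProg 𝒩 N st p).mach_det
  refine ⟨⟨M', fQ, fW⟩, hdet, ?_, ?_⟩
  · intro cv
    show M'.lang cv = _
    rw [← blockProg_lang 𝒩 N st cv hN hst p hp]
    exact Mach.restrict_lang _ cv _ hI (states_closed 𝒩 N st p hN)
  · show M'.size ≤ _
    refine (M'.size_le_of_det hdet).trans ?_
    have hW : Nat.card M'.W = Nat.card A * 2 + 1 := by
      show Nat.card (Option (A × Bool)) = _
      rw [Finite.card_option, Nat.card_prod]
      simp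
    rw [card_sym A M'.W, hW]
    have hQ : Nat.card M'.Q = (states 𝒩 N st p).ncard := rfl
    rw [hQ]
    set a := Nat.card A with ha_def
    set K := (states 𝒩 N st p).ncard with hK
    -- bound for the trees
    have hR : (2 * N) ^ p ≤ 2 ^ (p ^ 2) := by
      calc (2 * N) ^ p ≤ (2 ^ p) ^ p := Nat.pow_le_pow_left hp p
        _ = 2 ^ (p ^ 2) := by rw [← pow_mul, sq]
    have hNp : N ≤ 2 ^ p := by omega
    have hp1 : 1 ≤ p := by
      rcases Nat.eq_zero_or_pos p with h | h
      · subst h; simp at hp; omega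
      · exact h
    have hP : 1 ≤ 2 ^ (p ^ 2) := Nat.one_le_two_pow
    have hT : (trees 𝒩 N st p).ncard ≤ 2 ^ (p ^ 2 + 3 * p + 2) := by
      refine (trees_ncard_le 𝒩 N st p).trans ?_
      have h1 : N * (1 + (2 * N) ^ p) ≤ 2 ^ (p ^ 2) * 2 ^ p := by
        have : 1 + (2 * N) ^ p ≤ 2 * 2 ^ (p ^ 2) := by omega
        calc N * (1 + (2 * N) ^ p) ≤ N * (2 * 2 ^ (p ^ 2)) := Nat.mul_le_mul_left _ this
          _ = 2 ^ (p ^ 2) * (2 * N) := by ring
          _ ≤ 2 ^ (p ^ 2) * 2 ^ p := Nat.mul_le_mul_left _ hp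
      have h2 : N * (1 + N * (2 * N) ^ p) ≤ 2 ^ (p ^ 2) * 2 ^ p * 2 ^ p := by
        have h3 : 1 + N * (2 * N) ^ p ≤ 2 * (N * 2 ^ (p ^ 2)) := by
          have h4 : N * (2 * N) ^ p ≤ N * 2 ^ (p ^ 2) := Nat.mul_le_mul_left _ hR
          have h5 : 1 ≤ N * 2 ^ (p ^ 2) := Nat.mul_pos hN (by positivity)
          omega
        calc N * (1 + N * (2 * N) ^ p) ≤ N * (2 * (N * 2 ^ (p ^ 2))) := Nat.mul_le_mul_left _ h3
          _ = 2 ^ (p ^ 2) * (2 * N) * N := by ring
          _ ≤ 2 ^ (p ^ 2) * 2 ^ p * 2 ^ p :=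
            Nat.mul_le_mul (Nat.mul_le_mul_left _ hp) hNp
      have h6 : 2 ^ (p ^ 2) * 2 ^ p ≤ 2 ^ (p ^ 2) * 2 ^ p * 2 ^ p :=
        Nat.le_mul_of_pos_right _ (by positivity)
      have h7 : 2 * N * (N * (1 + (2 * N) ^ p) + N * (1 + N * (2 * N) ^ p)) ≤
          2 ^ p * (2 * (2 ^ (p ^ 2) * 2 ^ p * 2 ^ p)) :=
        Nat.mul_le_mul hp (by omega)
      have h8 : 2 ^ (p ^ 2 + 3 * p + 2) =
          2 ^ p * (2 * (2 ^ (p ^ 2) * 2 ^ p * 2 ^ p)) + 2 * 2 ^ (p ^ 2 + 3 * p) := by
        ring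
      have h9 : 1 ≤ 2 ^ (p ^ 2 + 3 * p) := Nat.one_le_two_pow
      omega
    have hKb : K ≤ 2 ^ (p ^ 2 + 5 * p + 5) := by
      refine (states_ncard_le 𝒩 N st p).trans ?_
      have h1 : 2 * N + 1 ≤ 2 * 2 ^ p := by omega
      have h2 : (trees 𝒩 N st p).ncard * (2 * N + 1) ≤ 2 ^ (p ^ 2 + 3 * p + 2) * (2 * 2 ^ p) :=
        Nat.mul_le_mul hT h1
      have h3 : 2 * N * ((trees 𝒩 N st p).ncard * (2 * N + 1)) ≤
          2 ^ p * (2 ^ (p ^ 2 + 3 * p + 2) * (2 * 2 ^ p)) := Nat.mul_le_mul hp h2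
      have h4 : 2 ^ (p ^ 2 + 5 * p + 5) =
          2 * (2 ^ p * (2 ^ (p ^ 2 + 3 * p + 2) * (2 * 2 ^ p))) +
            2 ^ (p ^ 2 + 5 * p + 4) := by
        ring
      have h5 : 2 ^ p * 4 ≤ 2 ^ (p ^ 2 + 5 * p + 4) := by
        calc 2 ^ p * 4 = 2 ^ (p + 2) := by ring
          _ ≤ 2 ^ (p ^ 2 + 5 * p + 4) := Nat.pow_le_pow_right (by norm_num) (by nlinarith)
      have h6 : 1 ≤ 2 ^ p := Nat.one_le_two_pow
      omega
    have h1 : 2 * K + a + (a + (a * 2 + 1) + 2) + 1 + 5 * (K * (a + (a * 2 + 1) + 2)) =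
        K * (15 * a + 17) + (4 * a + 4) := by ring
    rw [h1]
    have hp0 : 1 ≤ 2 ^ p := Nat.one_le_two_pow
    have h2 : K * (15 * a + 17) ≤ 2 ^ (p ^ 2 + 5 * p + 5) * (2 ^ p * 31) := by
      refine Nat.mul_le_mul hKb ?_
      omega
    have h3 : 2 ^ (p ^ 2 + 6 * p + 10) =
        2 ^ (p ^ 2 + 5 * p + 5) * (2 ^ p * 31) + 2 ^ (p ^ 2 + 5 * p + 5) * 2 ^ p := by
      ring
    have h4 : 4 * a + 4 ≤ 2 ^ (p ^ 2 + 5 * p + 5) * 2 ^ p := by
      have h5 : 2 ^ 5 ≤ 2 ^ (p ^ 2 + 5 * p + 5) :=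
        Nat.pow_le_pow_right (by norm_num) (by omega)
      calc 4 * a + 4 ≤ 2 ^ 5 * 2 ^ p := by omega
        _ ≤ 2 ^ (p ^ 2 + 5 * p + 5) * 2 ^ p := Nat.mul_le_mul_right _ h5
    omega

/-- **Upper bound.** Every 1-limited automaton of size at most `n` has an equivalent deterministic
one of size at most `2 ^ (n ^ 4)`. -/
theorem upper {A : Type} [Finite A] (M : LA A) (cv : Bool) (n : ℕ) (hM : M.toMach.size ≤ n) :
    ∃ D : LA A, D.toMach.Det ∧ (∀ cv', D.toMach.lang cv' = M.toMach.lang cv) ∧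
      D.toMach.size ≤ 2 ^ (n ^ 4) := by
  have fQ := M.finQ
  have fW := M.finW
  have hsize : Nat.card M.Q + Nat.card A + Nat.card (Sym A M.W) + 1 ≤ n := by
    refine le_trans ?_ hM
    unfold Mach.size
    omega
  rw [card_sym A M.W] at hsize
  set k := Nat.card M.Q with hk
  have hk1 : 0 < k := Nat.card_pos_iff.2 ⟨⟨M.qI⟩, fQ⟩
  obtain ⟨m, hm⟩ : ∃ m, n = m + 3 := ⟨n - 3, by omega⟩
  -- the states of the table automaton
  have fS : Finite (Set (M.Q × M.Q) × M.Q) := inferInstance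
  have hcard : Nat.card (Set (M.Q × M.Q) × M.Q) = 2 ^ (k * k) * k := by
    have := Fintype.ofFinite (M.Q × M.Q)
    rw [Nat.card_prod, Nat.card_eq_fintype_card (α := Set (M.Q × M.Q)), Fintype.card_set,
      ← Nat.card_eq_fintype_card (α := M.Q × M.Q), Nat.card_prod]
  set N := Nat.card (Set (M.Q × M.Q) × M.Q) with hN
  have hN0 : 0 < N := by rw [hcard]; positivity
  let e : (Set (M.Q × M.Q) × M.Q) ≃ Fin N := Finite.equivFin _
  let st : ℕ → Set (M.Q × M.Q) × M.Q := fun x => if h : x < N then e.symm ⟨x, h⟩ else (∅, M.qI)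
  have hst : ∀ s, ∃ x < N, st x = s := by
    intro s
    refine ⟨(e s).1, (e s).2, ?_⟩
    simp [st]
  have hkm : k ≤ m := by omega
  have h1 : k * k ≤ m ^ 2 := by rw [sq]; exact Nat.mul_le_mul hkm hkm
  have h2 : k ≤ 2 ^ m := hkm.trans Nat.lt_two_pow_self.le
  have hp : 2 * N ≤ 2 ^ (m ^ 2 + m + 1) := by
    rw [hcard]
    calc 2 * (2 ^ (k * k) * k) ≤ 2 * (2 ^ (m ^ 2) * 2 ^ m) := by
          refine Nat.mul_le_mul_left _ (Nat.mul_le_mul ?_ h2)
          exact Nat.pow_le_pow_right (by norm_num) h1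
      _ = 2 ^ (m ^ 2 + m + 1) := by ring
  have ha : Nat.card A ≤ 2 ^ (m ^ 2 + m + 1) := by
    have h3 : Nat.card A ≤ m := by omega
    refine h3.trans (Nat.lt_two_pow_self.le.trans ?_)
    exact Nat.pow_le_pow_right (by norm_num) (by omega)
  obtain ⟨D, hD, hL, hs⟩ := exists_det_of_nfa (M.toMach.toNFA cv) N st hN0 hst
    (m ^ 2 + m + 1) hp ha
  refine ⟨D, hD, fun cv' => by rw [hL cv', Mach.toNFA_accepts], hs.trans ?_⟩
  refine Nat.pow_le_pow_right (by norm_num) ?_
  rw [hm]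
  have h3 : (m + 3) ^ 4 = ((m ^ 2 + m + 1) ^ 2 + 6 * (m ^ 2 + m + 1) + 10) +
      (10 * m ^ 3 + 45 * m ^ 2 + 100 * m + 64) := by ring
  omega

end Pool.Agent.P0036f5v2
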